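import Pool.Agent.Helper8_HK.WDefs

/-! Statements of Part 2 of squad HK: Drinfeld modular forms. -/

namespace Pool.Agent.HK

open Polynomial Filter

/-- IMA: the absolute value and the imaginary part. -/
def IMAStmt : Prop := ∀ (F : Type) [Field F] [Fintype F] (C : Type) [NormedField C]
  [IsAlgClosed C] [CompleteSpace C] [IsUltrametricDist C] (ι : Kinf F →+* C), NormOK ι →
  (((Fintype.card F : ℕ) : C) = 0) ∧
  (∀ (x : Kinf F) (k : ℤ), InO k x → ‖ι x‖ ≤ ((Fintype.card F : ℕ) : ℝ) ^ (-k)) ∧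
  (∀ (x : Kinf F) (k : ℤ), InO k x → HahnSeries.coeff x k ≠ 0 →
    ‖ι x‖ = ((Fintype.card F : ℕ) : ℝ) ^ (-k)) ∧
  (∀ (x : Kinf F) (k : ℤ), ‖ι x‖ ≤ ((Fintype.card F : ℕ) : ℝ) ^ (-k) → InO k x) ∧
  (∀ z : C, 0 ≤ imz ι z ∧ ∀ x : Kinf F, imz ι z ≤ ‖z - ι x‖) ∧
  (∀ z ∈ Om ι, 0 < imz ι z ∧ ∃ x : Kinf F, imz ι z = ‖z - ι x‖) ∧
  (∀ (z : C) (x : Kinf F), imz ι (z + ι x) = imz ι z ∧ (z ∈ Om ι ↔ z + ι x ∈ Om ι)) ∧
  (∀ (N : ℕ) (z : C), z ∈ OmN ι N ↔ z ∈ Om ι ∧ ‖z‖ ≤ ((Fintype.card F : ℕ) : ℝ) ^ N ∧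
    (((Fintype.card F : ℕ) : ℝ) ^ N)⁻¹ ≤ imz ι z) ∧
  (∀ z ∈ Om ι, ∃ N : ℕ, z ∈ OmN ι N) ∧
  (∀ N M : ℕ, N ≤ M → OmN ι N ⊆ OmN ι M) ∧
  (∀ (z : C) (k : ℤ), ((Fintype.card F : ℕ) : ℝ) ^ k < ‖z‖ →
    ‖z‖ < ((Fintype.card F : ℕ) : ℝ) ^ (k + 1) → z ∈ Om ι ∧ imz ι z = ‖z‖)

/-- IMM: Moebius transformations of the upper half plane. -/
def IMMStmt : Prop := ∀ (F : Type) [Field F] [Fintype F] (C : Type) [NormedField C]
  [IsAlgClosed C] [CompleteSpace C] [IsUltrametricDist C] (ι : Kinf F →+* C), NormOK ι →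
  ∀ g : GLK F,
  (∀ z ∈ Om ι, ι (g 1 0) * z + ι (g 1 1) ≠ 0 ∧ mob ι g z ∈ Om ι ∧
    imz ι (mob ι g z) = ‖ι (g 0 0 * g 1 1 - g 0 1 * g 1 0)‖ * imz ι z /
      ‖ι (g 1 0) * z + ι (g 1 1)‖ ^ 2) ∧
  (∀ N : ℕ, ∃ (N' : ℕ) (c0 : ℝ), 0 < c0 ∧ ∀ z ∈ OmN ι N, mob ι g z ∈ OmN ι N' ∧
    c0 ≤ ‖ι (g 1 0) * z + ι (g 1 1)‖)

/-- SLA: the action on functions. -/
def SLAStmt : Prop := ∀ (F : Type) [Field F] [Fintype F] (C : Type) [NormedField C]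
  [IsAlgClosed C] [CompleteSpace C] [IsUltrametricDist C] (ι : Kinf F →+* C), NormOK ι →
  (∀ (g : GLK F) (z : C), z ∉ Om ι → mob ι g z ∉ Om ι) ∧
  (∀ f : C → C, Off ι f →
    (∀ g : GLK F, Off ι (slash ι g f)) ∧
    (∀ g h : GLK F, slash ι (g * h) f = slash ι h (slash ι g f)) ∧
    (slash ι 1 f = f) ∧ (∀ z : Kinf F, z ≠ 0 → slash ι (scal z) f = f) ∧
    (∀ (g : GLK F) (z : C), z ∈ Om ι →
      ‖slash ι g f z‖ * imz ι z = ‖f (mob ι g z)‖ * imz ι (mob ι g z)) ∧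
    (∀ (B : ℝ) (g : GLK F), BddI ι B f → BddI ι B (slash ι g f)))

/-- ELM: partial fractions. -/
def ELMStmt : Prop := ∀ (C : Type) [Field C] [IsAlgClosed C] (S : Set C),
  (∀ P Q : Polynomial C, (∀ z ∈ S, Q.eval z ≠ 0) →
    ∃ e ∈ Elm Sᶜ, ∀ z ∈ S, P.eval z / Q.eval z = e z) ∧
  (∀ e ∈ Elm Sᶜ, ∃ P Q : Polynomial C, (∀ z ∈ S, Q.eval z ≠ 0) ∧
    ∀ z ∈ S, P.eval z / Q.eval z = e z) ∧
  (∀ e ∈ Elm Sᶜ, ∀ b ∉ S, ∃ e' ∈ Elm Sᶜ, ∀ z ∈ S, e z * (z - b)⁻¹ = e' z)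

/-- HOL: holomorphic functions. -/
def HOLStmt : Prop := ∀ (F : Type) [Field F] [Fintype F] (C : Type) [NormedField C]
  [IsAlgClosed C] [CompleteSpace C] [IsUltrametricDist C] (ι : Kinf F →+* C), NormOK ι →
  ∀ f : C → C, IsHolo ι f →
  (∀ g : GLK F, IsHolo ι (slash ι g f)) ∧
  (∀ N : ℕ, ∃ B : ℝ, ∀ z ∈ OmN ι N, ‖f z‖ ≤ B)

/-- SCH: Schnirelman sums of the basis functions. -/
def SCHStmt : Prop := ∀ (F : Type) [Field F] [Fintype F] (C : Type) [NormedField C]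
  [IsAlgClosed C] [CompleteSpace C] [IsUltrametricDist C] (ι : Kinf F →+* C) (ρ : C),
  Ctx ι ρ →
  (∀ j : ℕ, Tendsto (fun k => SK F ρ k (fun z => z ^ j)) atTop (nhds 0)) ∧
  (∀ a : C, ‖a‖ < ‖ρ‖ → Tendsto (fun k => SK F ρ k (fun z => (z - a)⁻¹)) atTop (nhds 1)) ∧
  (∀ a : C, ‖ρ‖ < ‖a‖ → Tendsto (fun k => SK F ρ k (fun z => (z - a)⁻¹)) atTop (nhds 0)) ∧
  (∀ (a : C) (j : ℕ), ‖a‖ ≠ ‖ρ‖ →
    Tendsto (fun k => SK F ρ k (fun z => ((z - a) ^ (j + 2))⁻¹)) atTop (nhds 0)) ∧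
  (∀ (h : C → C) (B : ℝ) (k : ℕ), 0 ≤ B → (∀ z, ‖z‖ = ‖ρ‖ → ‖h z‖ ≤ B) →
    ‖SK F ρ k h‖ ≤ ‖ρ‖ * B)

/-- RES: the residue. -/
def RESStmt : Prop := ∀ (F : Type) [Field F] [Fintype F] (C : Type) [NormedField C]
  [IsAlgClosed C] [CompleteSpace C] [IsUltrametricDist C] (ι : Kinf F →+* C) (ρ : C),
  Ctx ι ρ →
  (∀ h : C → C, Nice ρ h → Tendsto (fun k => SK F ρ k h) atTop (nhds (res F ρ h))) ∧
  (∀ h h' : C → C, Nice ρ h → Nice ρ h' → Nice ρ (fun z => h z + h' z) ∧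
    res F ρ (fun z => h z + h' z) = res F ρ h + res F ρ h') ∧
  (∀ (c : C) (h : C → C), Nice ρ h → Nice ρ (fun z => c * h z) ∧
    res F ρ (fun z => c * h z) = c * res F ρ h) ∧
  (∀ h h' : C → C, (∀ z, ‖z‖ = ‖ρ‖ → h z = h' z) → (Nice ρ h → Nice ρ h') ∧
    res F ρ h = res F ρ h') ∧
  (∀ (h : C → C) (B : ℝ), Nice ρ h → 0 ≤ B → (∀ z, ‖z‖ = ‖ρ‖ → ‖h z‖ ≤ B) →
    ‖res F ρ h‖ ≤ ‖ρ‖ * B) ∧
  (∀ h : C → C, (∀ ε : ℝ, 0 < ε → ∃ h' : C → C, Nice ρ h' ∧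
    ∀ z, ‖z‖ = ‖ρ‖ → ‖h z - h' z‖ ≤ ε) → Nice ρ h) ∧
  (∀ e ∈ Elm {a : C | ‖a‖ ≠ ‖ρ‖}, Nice ρ e) ∧
  (∀ (h : C → C) (b : C), Nice ρ h → ‖b‖ ≠ ‖ρ‖ → Nice ρ (fun z => h z * (z - b)⁻¹)) ∧
  (∀ j : ℕ, res F ρ (fun z => z ^ j) = 0) ∧
  (∀ a : C, ‖a‖ < ‖ρ‖ → res F ρ (fun z => (z - a)⁻¹) = 1) ∧
  (∀ a : C, ‖ρ‖ < ‖a‖ → res F ρ (fun z => (z - a)⁻¹) = 0) ∧
  (∀ (a : C) (j : ℕ), ‖a‖ ≠ ‖ρ‖ → res F ρ (fun z => ((z - a) ^ (j + 2))⁻¹) = 0)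

/-- NIC: holomorphic functions are nice on the standard circle, which lies in `Ω_1`. -/
def NICStmt : Prop := ∀ (F : Type) [Field F] [Fintype F] (C : Type) [NormedField C]
  [IsAlgClosed C] [CompleteSpace C] [IsUltrametricDist C] (ι : Kinf F →+* C) (ρ : C),
  Ctx ι ρ →
  (1 < ‖ρ‖) ∧ (‖ρ‖ < ((Fintype.card F : ℕ) : ℝ)) ∧
  (‖ρ‖ ^ 2 = ((Fintype.card F : ℕ) : ℝ)) ∧
  (∀ z : C, ‖z‖ = ‖ρ‖ → z ∈ OmN ι 1 ∧ imz ι z = ‖ρ‖) ∧
  (∀ a ∉ OmN ι 1, ‖a‖ ≠ ‖ρ‖) ∧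
  (∀ f : C → C, IsHolo ι f → Nice ρ f)

/-- KIW: invariance of the residue under the Iwahori group. -/
def KIWStmt : Prop := ∀ (F : Type) [Field F] [Fintype F] (C : Type) [NormedField C]
  [IsAlgClosed C] [CompleteSpace C] [IsUltrametricDist C] (ι : Kinf F →+* C) (ρ : C),
  Ctx ι ρ → ∀ f : C → C, IsHolo ι f → ∀ k ∈ Iwahori, res F ρ (slash ι k f) = res F ρ f

/-- KFL: the residue and the reversal of the edge. -/
def KFLStmt : Prop := ∀ (F : Type) [Field F] [Fintype F] (C : Type) [NormedField C]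
  [IsAlgClosed C] [CompleteSpace C] [IsUltrametricDist C] (ι : Kinf F →+* C) (ρ : C),
  Ctx ι ρ → ∀ f : C → C, IsHolo ι f → res F ρ (slash ι flipM f) = - res F ρ f

/-- KSM: the sum relation for residues. -/
def KSMStmt : Prop := ∀ (F : Type) [Field F] [Fintype F] (C : Type) [NormedField C]
  [IsAlgClosed C] [CompleteSpace C] [IsUltrametricDist C] (ι : Kinf F →+* C) (ρ : C),
  Ctx ι ρ → ∀ f : C → C, IsHolo ι f →
  res F ρ f + ∑ u : F, res F ρ (slash ι (mat (cst F u) 1 1 0) f) = 0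

/-- KHA: the cochain of residues. -/
def KHAStmt : Prop := ∀ (F : Type) [Field F] [Fintype F] (C : Type) [NormedField C]
  [IsAlgClosed C] [CompleteSpace C] [IsUltrametricDist C] (ι : Kinf F →+* C) (ρ : C),
  Ctx ι ρ →
  (∀ f : C → C, Off ι f → IsHolo ι f → IsHarm (kap ι ρ f) ∧
    (∀ g h : GLK F, kap ι ρ (slash ι g f) h = kap ι ρ f (g * h)) ∧
    (∀ n : F[X], (∀ γ ∈ Gam0 n, slash ι (toK γ) f = f) → Invt n (kap ι ρ f)) ∧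
    (∀ (B : ℝ), BddI ι B f → ∀ g, ‖kap ι ρ f g‖ ≤ B)) ∧
  (∀ f f' : C → C, IsHolo ι f → IsHolo ι f' →
    kap ι ρ (f + f') = kap ι ρ f + kap ι ρ f') ∧
  (∀ (c : C) (f : C → C), IsHolo ι f → kap ι ρ (c • f) = c • kap ι ρ f)

/-- CAU: reconstruction of a function from its residues. -/
def CAUStmt : Prop := ∀ (F : Type) [Field F] [Fintype F] (C : Type) [NormedField C]
  [IsAlgClosed C] [CompleteSpace C] [IsUltrametricDist C] (ι : Kinf F →+* C) (ρ : C),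
  Ctx ι ρ → ∀ (f : C → C) (B : ℝ), Off ι f → IsHolo ι f → BddI ι B f →
  (∀ z ∈ Om ι, Tendsto (fun N : ℕ => ∑ s : Fin (2 * N) → F,
    kap ι ρ f (mat ((unif F) ^ (N : ℤ)) (dig (-(N : ℤ)) s) 0 1) *
      (z - ι (dig (-(N : ℤ)) s))⁻¹) atTop (nhds (f z))) ∧
  ((∀ g, kap ι ρ f g = 0) → f = 0)

/-- FDM: the fundamental domain. -/
def FDMStmt : Prop := ∀ (F : Type) [Field F] [Fintype F] (C : Type) [NormedField C]
  [IsAlgClosed C] [CompleteSpace C] [IsUltrametricDist C] (ι : Kinf F →+* C), NormOK ι →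
  ∀ z ∈ Om ι, ∃ γ : GLA F, ‖mob ι (toK γ) z‖ = imz ι (mob ι (toK γ) z) ∧
    1 ≤ imz ι (mob ι (toK γ) z)

/-- TEX: existence of the exponential function. -/
def TEXStmt : Prop := ∀ (F : Type) [Field F] [Fintype F] (C : Type) [NormedField C]
  [IsAlgClosed C] [CompleteSpace C] [IsUltrametricDist C] (ι : Kinf F →+* C), NormOK ι →
  ∃ e : C → C, IsEA ι e

/-- TBB: the functions `t_b`. -/
def TBBStmt : Prop := ∀ (F : Type) [Field F] [Fintype F] (C : Type) [NormedField C]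
  [IsAlgClosed C] [CompleteSpace C] [IsUltrametricDist C] (ι : Kinf F →+* C), NormOK ι →
  ∀ e : C → C, IsEA ι e →
  (∀ x : Kinf F, ‖e (ι x)‖ ≤ (((Fintype.card F : ℕ) : ℝ))⁻¹) ∧
  (∀ (b : F[X]) (z : C), b ≠ 0 → z ∈ Om ι →
    HasSum (fun a : F[X] => (z - ι (emb F (b * a)))⁻¹) (tb ι b z) ∧ tb ι b z ≠ 0 ∧
    ‖tb ι b z‖ * imz ι z ≤ 1 ∧
    tb ι b z = (ι (emb F b))⁻¹ * (e (z / ι (emb F b)))⁻¹) ∧
  (∀ (z : C) (x : Kinf F), z ∈ Om ι → 1 ≤ imz ι z → InO 1 x →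
    HasSum (fun j : ℕ => (e (ι x)) ^ j * (tb ι 1 z) ^ (j + 1)) (tb ι 1 (z - ι x))) ∧
  (∀ (z : C) (D : ℕ), z ∈ Om ι → ‖z‖ ≤ ((Fintype.card F : ℕ) : ℝ) ^ D →
    ‖(∑ s : Fin (D + 1) → F, (z - ι (dig (-(D : ℤ)) s))⁻¹) - tb ι 1 z‖ ≤
      (((Fintype.card F : ℕ) : ℝ) ^ (D + 1))⁻¹) ∧
  (∀ R : ℝ, ∃ z ∈ Om ι, R ≤ imz ι z)

/-- BNC: doubly cuspidal forms are bounded by a constant over `|z|_i`. -/
def BNCStmt : Prop := ∀ (F : Type) [Field F] [Fintype F] (C : Type) [NormedField C]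
  [IsAlgClosed C] [CompleteSpace C] [IsUltrametricDist C] (ι : Kinf F →+* C), NormOK ι →
  ∀ (n : F[X]), n.Monic → Irreducible n → ∀ f : C → C, IsDC ι n f → ∃ B : ℝ, BddI ι B f

/-- INT: integration against the measure of a bounded harmonic cochain. -/
def INTStmt : Prop := ∀ (F : Type) [Field F] [Fintype F] (C : Type) [NormedField C]
  [IsAlgClosed C] [CompleteSpace C] [IsUltrametricDist C] (ι : Kinf F →+* C), NormOK ι →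
  ∀ (φ : GLK F → C) (B : ℝ), IsHarm φ → (∀ g, ‖φ g‖ ≤ B) →
  (∀ g : Kinf F → C, LipK ι g →
    Tendsto (fun N : ℕ => SInt φ N g) atTop (nhds (IntK φ g))) ∧
  (∀ g g' : Kinf F → C, LipK ι g → LipK ι g' →
    IntK φ (fun x => g x + g' x) = IntK φ g + IntK φ g') ∧
  (∀ (c : C) (g : Kinf F → C), LipK ι g → IntK φ (fun x => c * g x) = c * IntK φ g) ∧
  (∀ (g : Kinf F → C) (G : ℝ), 0 ≤ G → LipK ι g → (∀ x, InO 1 x → ‖g x‖ ≤ G) →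
    ‖IntK φ g‖ ≤ B * G) ∧
  (∀ (g g' : Kinf F → C), (∀ x, InO 1 x → g x = g' x) → IntK φ g = IntK φ g') ∧
  (∀ (g : Kinf F → C) (N : ℕ), (∀ x y : Kinf F, InO 1 x → InO 1 y → InO ((N : ℤ) + 1) (x - y) →
    g x = g y) → LipK ι g ∧ IntK φ g = SInt φ N g) ∧
  (∀ (g : Kinf F → C) (G : ℕ → C) (gs : ℕ → Kinf F → C), LipK ι g → (∀ i, LipK ι (gs i)) →
    (∀ ε : ℝ, 0 < ε → ∃ i0 : ℕ, ∀ i ≥ i0, ∀ x, InO 1 x → ‖g x - gs i x‖ ≤ ε) →
    (∀ i, G i = IntK φ (gs i)) → Tendsto G atTop (nhds (IntK φ g)))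

/-- LIP: Lipschitz functions. -/
def LIPStmt : Prop := ∀ (F : Type) [Field F] [Fintype F] (C : Type) [NormedField C]
  [IsAlgClosed C] [CompleteSpace C] [IsUltrametricDist C] (ι : Kinf F →+* C), NormOK ι →
  (∀ g g' : Kinf F → C, LipK ι g → LipK ι g' → LipK ι (fun x => g x + g' x) ∧
    LipK ι (fun x => g x * g' x)) ∧
  (∀ c : C, LipK ι (fun _ : Kinf F => c)) ∧
  (∀ (g : Kinf F → C) (j : ℕ), LipK ι g → LipK ι (fun x => g x ^ j)) ∧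
  (∀ e : C → C, IsEA ι e → ∀ a : Kinf F, LipK ι (fun x : Kinf F => e (ι (a * x))))

/-- EXP: expansions of periodic functions. -/
def EXPStmt : Prop := ∀ (F : Type) [Field F] [Fintype F] (C : Type) [NormedField C]
  [IsAlgClosed C] [CompleteSpace C] [IsUltrametricDist C] (ι : Kinf F →+* C) (ρ : C),
  Ctx ι ρ → ∀ (h : C → C) (B : ℝ) (b : F[X]), Off ι h → IsHolo ι h → BddI ι B h → b ≠ 0 →
  (∀ a : F[X], slash ι (mat 1 (emb F (b * a)) 0 1) h = h) →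
  ∃ m : ℕ → C, HasExp ι 1 b h (fun i => if i = 0 then 0 else m (i - 1)) ∧
    m 0 = kap ι ρ h (mat (unif F * emb F b) 0 0 1) ∧
    (b = 1 → ∀ e : C → C, IsEA ι e → ∀ j : ℕ,
      m j = IntK (kap ι ρ h) (fun x => (e (ι x)) ^ j))

/-- UNQ: uniqueness of expansions. -/
def UNQStmt : Prop := ∀ (F : Type) [Field F] [Fintype F] (C : Type) [NormedField C]
  [IsAlgClosed C] [CompleteSpace C] [IsUltrametricDist C] (ι : Kinf F →+* C), NormOK ι →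
  ∀ (c : C) (b : F[X]) (f : C → C) (a a' : ℕ → C), c ≠ 0 → b ≠ 0 →
  HasExp ι c b f a → HasExp ι c b f a' → a = a'

/-- CUS: the cochain of a doubly cuspidal form. -/
def CUSStmt : Prop := ∀ (F : Type) [Field F] [Fintype F] (C : Type) [NormedField C]
  [IsAlgClosed C] [CompleteSpace C] [IsUltrametricDist C] (ι : Kinf F →+* C) (ρ : C),
  Ctx ι ρ → ∀ (n : F[X]), n.Monic → Irreducible n → ∀ f : C → C, IsDC ι n f →
  Cusp n (kap ι ρ f)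

/-- CUT: the converse. -/
def CUTStmt : Prop := ∀ (F : Type) [Field F] [Fintype F] (C : Type) [NormedField C]
  [IsAlgClosed C] [CompleteSpace C] [IsUltrametricDist C] (ι : Kinf F →+* C) (ρ : C),
  Ctx ι ρ → ∀ (n : F[X]), n.Monic → Irreducible n → ∀ (f : C → C) (B : ℝ), Off ι f →
  IsHolo ι f → BddI ι B f → (∀ γ ∈ Gam0 n, slash ι (toK γ) f = f) → Cusp n (kap ι ρ f) →
  IsDC ι n f

/-- HKM: Hecke operators on doubly cuspidal forms. -/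
def HKMStmt : Prop := ∀ (F : Type) [Field F] [Fintype F] (C : Type) [NormedField C]
  [IsAlgClosed C] [CompleteSpace C] [IsUltrametricDist C] (ι : Kinf F →+* C) (ρ : C),
  Ctx ι ρ → ∀ (n m : F[X]), n.Monic → Irreducible n → m.Monic → ∀ f : C → C, IsDC ι n f →
  IsDC ι n (heckeC ι n m f) ∧ kap ι ρ (heckeC ι n m f) = hecke n m (kap ι ρ f)

/-- BFI: the first coefficient as an integral. -/
def BFIStmt : Prop := ∀ (F : Type) [Field F] [Fintype F] (C : Type) [NormedField C]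
  [IsAlgClosed C] [CompleteSpace C] [IsUltrametricDist C] (ι : Kinf F →+* C) (ρ : C),
  Ctx ι ρ → ∀ (n : F[X]), n.Monic → Irreducible n → ∀ f : C → C, IsDC ι n f →
  ∀ e : C → C, IsEA ι e → ∀ (c : C) (a : ℕ → C), c ≠ 0 → HasExp ι c 1 f a →
  a (Fintype.card F) = c ^ (Fintype.card F) *
    IntK (kap ι ρ f) (fun x => (e (ι x)) ^ (Fintype.card F - 1))

/-- POW: power sums over a vector space. -/
def POWStmt : Prop := ∀ (F : Type) [Field F] [Fintype F] (C : Type) [Field C] (j : F →+* C)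
  (V : Type) [AddCommGroup V] [Module F V] [Fintype V] [Nontrivial V] (u : V → C),
  (∀ v w, u (v + w) = u v + u w) → (∀ (c : F) v, u (c • v) = j c * u v) → ∀ Y : C,
  ∑ v : V, (Y + u v) ^ (Fintype.card F - 1) = ∑ v : V, (u v) ^ (Fintype.card F - 1)

/-- BTM: the first coefficient of `T_m f`. -/
def BTMStmt : Prop := ∀ (F : Type) [Field F] [Fintype F] (C : Type) [NormedField C]
  [IsAlgClosed C] [CompleteSpace C] [IsUltrametricDist C] (ι : Kinf F →+* C), NormOK ι →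
  ∀ (φ : GLK F → C) (B : ℝ) (n m : F[X]), n ≠ 0 → m.Monic → IsHarm φ → (∀ g, ‖φ g‖ ≤ B) →
  Invt n φ → val φ 1 0 = 0 → ∀ e : C → C, IsEA ι e →
  IntK (hecke n m φ) (fun x => (e (ι x)) ^ (Fintype.card F - 1)) =
    IntK φ (fun x => (e (ι (emb F m * x))) ^ (Fintype.card F - 1))

/-- DIG: inversion of the digits. -/
def DIGStmt : Prop := ∀ (F : Type) [Field F] [Fintype F] (C : Type) [NormedField C]
  [IsAlgClosed C] [CompleteSpace C] [IsUltrametricDist C] (ι : Kinf F →+* C), NormOK ι →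
  ∀ e : C → C, IsEA ι e → ∃ c : ℕ → C,
  (∀ l, ‖c l‖ ≤ ((Fintype.card F : ℕ) : ℝ) * (((Fintype.card F : ℕ) : ℝ) ^ l)⁻¹) ∧
  (∀ (x : Kinf F) (N : ℕ),
    ‖(∑ l ∈ Finset.range N, c l * e (ι (emb F (X ^ l) * x))) -
      ι (cst F (HahnSeries.coeff x 1))‖ ≤ (((Fintype.card F : ℕ) : ℝ) ^ N)⁻¹)

/-- RKN: from integrals to values. -/
def RKNStmt : Prop := ∀ (F : Type) [Field F] [Fintype F] [DecidableEq F] (C : Type)
  [NormedField C] [IsAlgClosed C] [CompleteSpace C] [IsUltrametricDist C]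
  (ι : Kinf F →+* C), NormOK ι →
  ∀ (φ : GLK F → C) (B : ℝ) (n : F[X]), IsHarm φ → (∀ g, ‖φ g‖ ≤ B) → Invt n φ →
  ∀ e : C → C, IsEA ι e →
  (∀ m : F[X], m.Monic →
    IntK φ (fun x => (e (ι (emb F m * x))) ^ (Fintype.card F - 1)) = 0) →
  ∀ m : F[X], m.Monic → m.natDegree ≤ 3 →
    (∑ s : Fin 4 → F,
      if HahnSeries.coeff (emb F m * ∑ j : Fin 4, cst F (s j) * (unif F) ^ (1 + (j : ℕ))) 1 = 1
      then val φ 5 (∑ j : Fin 4, cst F (s j) * (unif F) ^ (1 + (j : ℕ))) else 0) = 0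

/-- RKM: the right kernel is zero. -/
def RKMStmt : Prop := ∀ (F : Type) [Field F] [Fintype F] (C : Type) [NormedField C]
  [IsAlgClosed C] [CompleteSpace C] [IsUltrametricDist C] (ι : Kinf F →+* C), NormOK ι →
  ∀ (n : F[X]), n.Monic → Irreducible n → n.natDegree = 4 → ∀ (c : C), c ≠ 0 →
  ∀ f : C → C, IsDC ι n f →
  (∀ (m : F[X]) (a : ℕ → C), m.Monic → HasExp ι c 1 (heckeC ι n m f) a →
    a (Fintype.card F) = 0) → f = 0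

/-- MFD: finite dimension and commutativity. -/
def MFDStmt : Prop := ∀ (F : Type) [Field F] [Fintype F] (C : Type) [NormedField C]
  [IsAlgClosed C] [CompleteSpace C] [IsUltrametricDist C] (ι : Kinf F →+* C), NormOK ι →
  ∀ (n : F[X]), n.Monic → Irreducible n →
  Module.Finite C (dcM ι n) ∧
  (∀ m : F[X], m.Monic → ∀ f ∈ dcM ι n, heckeC ι n m f ∈ dcM ι n) ∧
  (∀ m m' : F[X], m.Monic → m'.Monic → ∀ f ∈ dcM ι n,
    heckeC ι n m (heckeC ι n m' f) = heckeC ι n m' (heckeC ι n m f))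

/-- DFN: the pairing on Drinfeld modular forms is perfect, for every normalisation `t/c` of the
uniformizer. -/
def DFNStmt : Prop := ∀ (F : Type) [Field F] [Fintype F] (C : Type) [NormedField C]
  [IsAlgClosed C] [CompleteSpace C] [IsUltrametricDist C] (ι : Kinf F →+* C), NormOK ι →
  ∀ (n : F[X]), n.Monic → Irreducible n → n.natDegree = 4 →
  (∀ m : F[X], m.Monic → ∀ f ∈ dcM ι n, heckeC ι n m f ∈ dcM ι n) ∧
  ∀ c : C, c ≠ 0 → ∃ b : dcM ι n →ₗ[C] C,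
    (∀ (f : dcM ι n) (a : ℕ → C), HasExp ι c 1 (f : C → C) a → b f = a (Fintype.card F)) ∧
    Function.Bijective (pairM ι n b) ∧ Function.Bijective (pairM ι n b).flip

end Pool.Agent.HK
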