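import Pool.Agent.Helper8_HK.Defs

/-! Statements of the three library modules LAU, MTX, VAL of squad HK. -/

namespace Pool.Agent.HK

open Polynomial

/-- LAU: arithmetic of the completion. -/
def LAUStmt : Prop := ∀ (F : Type) [Field F],
  (∀ (a : F[X]) (i : ℕ), HahnSeries.coeff (emb F a) (-(i : ℤ)) = a.coeff i) ∧
  (∀ (a : F[X]) (k : ℤ), 0 < k → HahnSeries.coeff (emb F a) k = 0) ∧
  (∀ (c : F) (x : Kinf F) (k : ℤ),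
    HahnSeries.coeff (cst F c * x) k = c * HahnSeries.coeff x k) ∧
  (∀ c : F, emb F (C c) = cst F c) ∧
  (emb F X = (unif F) ^ (-1 : ℤ)) ∧
  (unif F ≠ 0) ∧
  (∀ (k i : ℤ) (x : Kinf F),
    HahnSeries.coeff ((unif F) ^ k * x) i = HahnSeries.coeff x (i - k)) ∧
  (∀ (k l : ℤ) (x y : Kinf F), InO k x → InO l y → InO (k + l) (x * y) ∧
    HahnSeries.coeff (x * y) (k + l) = HahnSeries.coeff x k * HahnSeries.coeff y l) ∧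
  (∀ x : Kinf F, x ≠ 0 → ∃ (k : ℤ) (u : Kinf F), x = (unif F) ^ k * u ∧ InO 0 u ∧
    HahnSeries.coeff u 0 ≠ 0) ∧
  (∀ u : Kinf F, InO 0 u → HahnSeries.coeff u 0 ≠ 0 → InO 0 u⁻¹ ∧
    HahnSeries.coeff u⁻¹ 0 = (HahnSeries.coeff u 0)⁻¹) ∧
  (∀ x : Kinf F, ∃ a : F[X], InO 1 (x - emb F a)) ∧
  (∀ a : F[X], InO 1 (emb F a) → a = 0) ∧
  (∀ a : F[X], a.Monic → ∃ u : Kinf F, emb F a = (unif F) ^ (-(a.natDegree : ℤ)) * u ∧
    InO 0 u ∧ HahnSeries.coeff u 0 = 1)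

/-- MTX: calculus of the explicit matrices. -/
def MTXStmt : Prop := ∀ (F : Type) [Field F],
  (∀ a b c d : Kinf F, a * d - b * c ≠ 0 →
    (mat a b c d) 0 0 = a ∧ (mat a b c d) 0 1 = b ∧ (mat a b c d) 1 0 = c ∧
    (mat a b c d) 1 1 = d) ∧
  (∀ g : GLK F, g = mat (g 0 0) (g 0 1) (g 1 0) (g 1 1) ∧
    g 0 0 * g 1 1 - g 0 1 * g 1 0 ≠ 0) ∧
  (∀ a b c d a' b' c' d' : Kinf F, a * d - b * c ≠ 0 → a' * d' - b' * c' ≠ 0 →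
    mat a b c d * mat a' b' c' d' =
      mat (a * a' + b * c') (a * b' + b * d') (c * a' + d * c') (c * b' + d * d')) ∧
  (∀ a b c d : Kinf F, a * d - b * c ≠ 0 →
    (mat a b c d)⁻¹ = mat (d / (a * d - b * c)) (-b / (a * d - b * c))
      (-c / (a * d - b * c)) (a / (a * d - b * c))) ∧
  (mat (1 : Kinf F) 0 0 1 = 1) ∧
  (∀ (z : Kinf F) (g : GLK F), z ≠ 0 → g * scal z = scal z * g) ∧
  (∀ z w : Kinf F, z ≠ 0 → w ≠ 0 → scal z * scal w = (scal (z * w) : GLK F)) ∧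
  (∀ k l : GLK F, k ∈ Iwahori → l ∈ Iwahori → k * l ∈ Iwahori) ∧
  (∀ k : GLK F, k ∈ Iwahori → k⁻¹ ∈ Iwahori) ∧
  (∀ k : GLK F, k ∈ Iwahori → flipM⁻¹ * k * flipM ∈ Iwahori) ∧
  (flipM * flipM = (scal (unif F) : GLK F)) ∧
  (∀ γ : GLA F, (toK γ) 0 0 = emb F (γ 0 0) ∧ (toK γ) 0 1 = emb F (γ 0 1) ∧
    (toK γ) 1 0 = emb F (γ 1 0) ∧ (toK γ) 1 1 = emb F (γ 1 1)) ∧
  (∀ a b c d : F[X], IsUnit (a * d - b * c) → ∃ γ : GLA F,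
    γ 0 0 = a ∧ γ 0 1 = b ∧ γ 1 0 = c ∧ γ 1 1 = d) ∧
  (∀ (x : F[X]) (n : F[X]), ∃ γ ∈ Gam0 n, (toK γ : GLK F) = mat 1 (emb F x) 0 1) ∧
  (∀ (a d : F) (n : F[X]), a ≠ 0 → d ≠ 0 →
    ∃ γ ∈ Gam0 n, (toK γ : GLK F) = mat (cst F a) 0 0 (cst F d)) ∧
  (∀ (n : F[X]) (γ δ : GLA F), γ ∈ Gam0 n → δ ∈ Gam0 n → γ * δ ∈ Gam0 n) ∧
  (∀ (n : F[X]) (γ : GLA F), γ ∈ Gam0 n → γ⁻¹ ∈ Gam0 n)

/-- VAL: values of harmonic cochains on the edges `(π^k, u; 0, 1)`. -/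
def VALStmt : Prop := ∀ (F : Type) [Field F] [Fintype F] (R : Type) [AddCommGroup R]
  (φ : GLK F → R), IsHarm φ →
  -- dependence on `u` modulo `π^k O` only, also behind a fixed matrix `g`
  (∀ (g : GLK F) (k : ℤ) (u v : Kinf F), InO k (u - v) →
    φ (g * mat ((unif F) ^ k) u 0 1) = φ (g * mat ((unif F) ^ k) v 0 1)) ∧
  -- general upper triangular matrices
  (∀ (g : GLK F) (a b d : Kinf F) (k : ℤ) (e : Kinf F), d ≠ 0 → a / d = (unif F) ^ k * e →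
    InO 0 e → HahnSeries.coeff e 0 ≠ 0 →
    φ (g * mat a b 0 d) = φ (g * mat ((unif F) ^ k) (b / d) 0 1)) ∧
  -- the vertex relation
  (∀ (g : GLK F) (k : ℤ) (u : Kinf F),
    ∑ s : F, φ (g * mat ((unif F) ^ (k + 1)) (u + cst F s * (unif F) ^ k) 0 1) =
      φ (g * mat ((unif F) ^ k) u 0 1)) ∧
  -- iterated vertex relation
  (∀ (g : GLK F) (k : ℤ) (N : ℕ) (u : Kinf F),
    ∑ s : Fin N → F, φ (g * mat ((unif F) ^ (k + N))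
      (u + ∑ j : Fin N, cst F (s j) * (unif F) ^ (k + (j : ℕ))) 0 1) =
      φ (g * mat ((unif F) ^ k) u 0 1)) ∧
  -- left translations
  (∀ h : GLK F, IsHarm (fun g => φ (h * g))) ∧
  -- the edge `(π,0;0,1)` is the reversed edge of `(0,1;1,0)`
  (∀ g : GLK F, φ (g * mat (unif F) 0 0 1) = - φ (g * mat 0 1 1 0)) ∧
  -- Γ_0(n)-invariance
  (∀ n : F[X], Invt n φ →
    (∀ (k : ℤ) (u : Kinf F) (a : F[X]), val φ k (u + emb F a) = val φ k u) ∧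
    (∀ (k : ℤ) (u : Kinf F) (c : F), c ≠ 0 → val φ k (cst F c * u) = val φ k u) ∧
    (∀ (k : ℤ) (u : Kinf F), k ≤ 1 → val φ k u = val φ k 0) ∧
    (∀ (m : ℕ), val φ (1 - m) 0 = ((Fintype.card F) ^ m) • val φ 1 0))

end Pool.Agent.HK
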