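import Pool.Agent.Helper8_HK.Stmt0

/-! Statements of Part 1 of squad HK: harmonic cochains and Hecke operators. -/

namespace Pool.Agent.HK

open Polynomial

/-- IWA: every matrix is upper triangular up to `flipM`, scalars and the Iwahori group. -/
def IWAStmt : Prop := ∀ (F : Type) [Field F] (g : GLK F),
  ∃ (k : ℤ) (u z : Kinf F) (i : GLK F), z ≠ 0 ∧ i ∈ Iwahori ∧
    (g = mat ((unif F) ^ k) u 0 1 * scal z * i ∨
      g = mat ((unif F) ^ k) u 0 1 * flipM * scal z * i)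

/-- RED: the half line is a fundamental domain for `GL_2(A)`. -/
def REDStmt : Prop := ∀ (F : Type) [Field F] (g : GLK F),
  ∃ (γ : GLA F) (j : ℤ) (z : Kinf F) (i : GLK F), j ≤ 1 ∧ z ≠ 0 ∧ i ∈ Iwahori ∧
    (g = toK γ * mat ((unif F) ^ j) 0 0 1 * scal z * i ∨
      g = toK γ * mat ((unif F) ^ j) 0 0 1 * flipM * scal z * i)

/-- ZER: a harmonic cochain vanishing on `GL_2(A)` is zero. -/
def ZERStmt : Prop := ∀ (F : Type) [Field F] [Fintype F] (R : Type) [AddCommGroup R]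
  (φ : GLK F → R), IsHarm φ → (∀ γ : GLA F, φ (toK γ) = 0) → ∀ g, φ g = 0

/-- ZLV: level one. -/
def ZLVStmt : Prop := ∀ (F : Type) [Field F] [Fintype F] (R : Type) [AddCommGroup R]
  (φ : GLK F → R), IsHarm φ → Invt 1 φ → val φ 1 0 = 0 → ∀ g, φ g = 0

/-- COS: cosets of `Γ_0(n)` in `GL_2(A)`, `n` irreducible. -/
def COSStmt : Prop := ∀ (F : Type) [Field F] (n : F[X]), n.Monic → Irreducible n →
  (∀ γ : GLA F, γ ∈ Gam0 n ∨ ∃ δ ∈ Gam0 n, ∃ x : F[X], x.degree < n.degree ∧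
    (toK γ : GLK F) = toK δ * mat 0 (-1) 1 (emb F x)) ∧
  (∀ x y : F[X], n ∣ x - y → ∃ δ ∈ Gam0 n,
    (mat 0 (-1) 1 (emb F x) : GLK F) = toK δ * mat 0 (-1) 1 (emb F y)) ∧
  (∀ κ x : F[X], n ∣ κ * x - 1 → ∃ δ ∈ Gam0 n,
    (mat 1 0 (-(emb F κ)) (-1) : GLK F) = toK δ * mat 0 (-1) 1 (emb F x))

/-- ATK: the Atkin-Lehner involution. -/
def ATKStmt : Prop := ∀ (F : Type) [Field F] [Fintype F] (R : Type) [AddCommGroup R]
  (n : F[X]), n ≠ 0 → ∀ φ : GLK F → R, IsHarm φ → Invt n φ →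
  IsHarm (atk n φ) ∧ Invt n (atk n φ) ∧ atk n (atk n φ) = φ

/-- CSP: finite support means vanishing at the two cusps. -/
def CSPStmt : Prop := ∀ (F : Type) [Field F] [Fintype F] (n : F[X]), n.Monic → Irreducible n →
  ∀ φ : GLK F → ℤ, IsHarm φ → Invt n φ →
  (FinSupp n φ ↔ val φ 1 0 = 0 ∧ val (atk n φ) 1 0 = 0)

/-- DLT: representatives of `Γ_0(n) \ Δ_m`. -/
def DLTStmt : Prop := ∀ (F : Type) [Field F] (n m : F[X]), m.Monic →
  ∀ α β χ δ : F[X], n ∣ χ → IsCoprime α n → (∃ u : F, u ≠ 0 ∧ α * δ - β * χ = C u * m) →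
  ∃! x : F[X] × F[X] × F[X], x ∈ HIdx n m ∧ ∃ γ ∈ Gam0 n,
    (mat (emb F α) (emb F β) (emb F χ) (emb F δ) : GLK F) = toK γ * hmat x

/-- HPM: permutations of the index set. -/
def HPMStmt : Prop := ∀ (F : Type) [Field F] [Fintype F] (n m : F[X]), n ≠ 0 → m.Monic →
  (HIdx n m).Finite ∧
  (∀ γ ∈ Gam0 n, ∃ e : HIdx n m ≃ HIdx n m, ∀ x : HIdx n m, ∃ δ ∈ Gam0 n,
    hmat (x : F[X] × F[X] × F[X]) * toK γ = toK δ * hmat ((e x : HIdx n m) : F[X] × F[X] × F[X])) ∧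
  (IsCoprime m n → ∃ e : HIdx n m ≃ HIdx n m, ∀ x : HIdx n m, ∃ δ ∈ Gam0 n,
    Wmat n * hmat (x : F[X] × F[X] × F[X]) =
      toK δ * hmat ((e x : HIdx n m) : F[X] × F[X] × F[X]) * Wmat n)

/-- HWD: Hecke operators preserve harmonic `Γ_0(n)`-invariant cochains. -/
def HWDStmt : Prop := ∀ (F : Type) [Field F] [Fintype F] (R : Type) [AddCommGroup R]
  (n m : F[X]), n ≠ 0 → m.Monic → ∀ φ : GLK F → R, IsHarm φ → Invt n φ →
  IsHarm (hecke n m φ) ∧ Invt n (hecke n m φ)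

/-- HRI: Hecke operators and the value at the cusp infinity. -/
def HRIStmt : Prop := ∀ (F : Type) [Field F] [Fintype F] (R : Type) [AddCommGroup R]
  (n m : F[X]), n ≠ 0 → m.Monic → ∀ φ : GLK F → R, IsHarm φ → Invt n φ → val φ 1 0 = 0 →
  val (hecke n m φ) 1 0 = 0

/-- HAT: `T_m` commutes with the Atkin-Lehner involution when `m` is prime to `n`. -/
def HATStmt : Prop := ∀ (F : Type) [Field F] [Fintype F] (R : Type) [AddCommGroup R]
  (n m : F[X]), n ≠ 0 → m.Monic → IsCoprime m n → ∀ φ : GLK F → R, IsHarm φ → Invt n φ →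
  hecke n m (atk n φ) = atk n (hecke n m φ)

/-- HTN: `T_n = - W` on cochains vanishing at both cusps, `n` prime. -/
def HTNStmt : Prop := ∀ (F : Type) [Field F] [Fintype F] (R : Type) [AddCommGroup R]
  (n : F[X]), n.Monic → Irreducible n → ∀ φ : GLK F → R, Cusp n φ →
  ∀ g, hecke n n φ g = - atk n φ g

/-- HMU: products of Hecke operators. -/
def HMUStmt : Prop := ∀ (F : Type) [Field F] [Fintype F] (R : Type) [AddCommGroup R]
  (n : F[X]), n.Monic → ∀ φ : GLK F → R, IsHarm φ → Invt n φ →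
  (∀ m m' : F[X], m.Monic → m'.Monic →
    hecke n m (hecke n m' φ) = hecke n m' (hecke n m φ)) ∧
  (Irreducible n → ∀ m' : F[X], m'.Monic → hecke n (n * m') φ = hecke n n (hecke n m' φ))

/-- HST: Hecke operators preserve the cochains vanishing at both cusps. -/
def HSTStmt : Prop := ∀ (F : Type) [Field F] [Fintype F] (R : Type) [AddCommGroup R]
  (n m : F[X]), n.Monic → Irreducible n → m.Monic → ∀ φ : GLK F → R, Cusp n φ →
  Cusp n (hecke n m φ)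

/-- FRE: the module of integral cuspidal cochains is finite and free. -/
def FREStmt : Prop := ∀ (F : Type) [Field F] [Fintype F] (n : F[X]), n.Monic → Irreducible n →
  Module.Finite ℤ (harm0 n) ∧ Module.Free ℤ (harm0 n)

/-- FOU: the coefficient `c_1` is the Fourier coefficient at the trivial ideal. -/
def FOUStmt : Prop := ∀ (F : Type) [Field F] [Fintype F] (n : F[X]), ∀ φ : GLK F → ℤ,
  IsHarm φ → Invt n φ → val φ 1 0 = 0 → ∀ ψ : AddChar F ℂ, ψ ≠ 1 →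
  ((- val φ 2 (unif F) : ℤ) : ℂ) =
    ((Fintype.card F : ℂ))⁻¹ * ∑ u : F, ((val φ 2 (cst F u * unif F) : ℤ) : ℂ) * ψ (-u)

/-- CMF: the coefficient `c_m`, `deg m ≤ 3`. -/
def CMFStmt : Prop := ∀ (F : Type) [Field F] [Fintype F] [DecidableEq F] (R : Type)
  [AddCommGroup R] (n m : F[X]), n ≠ 0 → m.Monic → m.natDegree ≤ 3 → ∀ φ : GLK F → R,
  IsHarm φ → Invt n φ → val φ 1 0 = 0 →
  val (hecke n m φ) 2 (unif F) =
    ∑ s : Fin 4 → F,
      if HahnSeries.coeff (emb F m * ∑ j : Fin 4, cst F (s j) * (unif F) ^ (1 + (j : ℕ))) 1 = 1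
      then val φ 5 (∑ j : Fin 4, cst F (s j) * (unif F) ^ (1 + (j : ℕ))) else 0

/-- KAP: the same sum in terms of the residue field `A/n`. -/
def KAPStmt : Prop := ∀ (F : Type) [Field F] [Fintype F] [DecidableEq F] (R : Type)
  [AddCommGroup R] (n m : F[X]), n.Monic → n.natDegree = 4 → m.Monic → m.natDegree ≤ 3 →
  ∀ φ : GLK F → R, IsHarm φ → Invt n φ →
  (∑ s : Fin 4 → F,
      if HahnSeries.coeff (emb F m * ∑ j : Fin 4, cst F (s j) * (unif F) ^ (1 + (j : ℕ))) 1 = 1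
      then val φ 5 (∑ j : Fin 4, cst F (s j) * (unif F) ^ (1 + (j : ℕ))) else 0) =
  - ∑ t : Fin 4 → F,
      if ((m * ∑ j : Fin 4, C (t j) * X ^ (j : ℕ)) %ₘ n).coeff 3 = 1
      then atk n φ (mat 1 0 (-(emb F (∑ j : Fin 4, C (t j) * X ^ (j : ℕ)))) (-1)) else 0

/-- LAT: the linear algebra theorem over the field `L` of degree 4. -/
def LATStmt : Prop := ∀ (F L k : Type) [Field F] [Field L] [Field k] [Fintype F] [Fintype L]
  [DecidableEq F] [Algebra F L], Module.finrank F L = 4 → ∀ τ : L →ₗ[F] F, τ ≠ 0 →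
  ∀ E : L → k,
  (∀ (a b : F) (x : L), a ≠ 0 → E (algebraMap F L a * x + algebraMap F L b) = E x) →
  (∀ x : L, E x + ∑ c : F, E ((x + algebraMap F L c)⁻¹) = 0) →
  E 0 = 0 →
  (∀ M : L, M ≠ 0 → ∑ κ : L, (if τ (κ * M) = 1 then E κ⁻¹ else 0) = 0) →
  ∀ x, E x = 0

/-- CORE: the main nondegeneracy theorem, over every field `k`. -/
def COREStmt : Prop := ∀ (F : Type) [Field F] [Fintype F] (k : Type) [Field k] (n : F[X]),
  n.Monic → Irreducible n → n.natDegree = 4 → ∀ φ : GLK F → k, Cusp n φ →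
  (∀ m : F[X], m.Monic → m.natDegree ≤ 3 → val (hecke n m φ) 2 (unif F) = 0) →
  ∀ g, φ g = 0

/-- ALG: functionals generating the dual modulo every prime generate the dual. -/
def ALGStmt : Prop := ∀ (H : Type) [AddCommGroup H] [Module.Finite ℤ H] [Module.Free ℤ H]
  (ι : Type) (lam : ι → H →ₗ[ℤ] ℤ),
  (∀ l : ℕ, l.Prime → ∀ x : H, (∀ i, (l : ℤ) ∣ lam i x) → ∃ y : H, x = (l : ℤ) • y) →
  Submodule.span ℤ (Set.range lam) = ⊤

/-- PPZ: the pairing over `ℤ` is perfect. -/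
def PPZStmt : Prop := ∀ (F : Type) [Field F] [Fintype F] (n : F[X]),
  n.Monic → Irreducible n → n.natDegree = 4 →
  (∀ m : F[X], m.Monic → ∀ φ ∈ harm0 n, hecke n m φ ∈ harm0 n) ∧
  (∀ φ : harm0 n, ∀ ψ : AddChar F ℂ, ψ ≠ 1 → ((c1 n φ : ℤ) : ℂ) =
    ((Fintype.card F : ℂ))⁻¹ *
      ∑ u : F, ((val (φ : GLK F → ℤ) 2 (cst F u * unif F) : ℤ) : ℂ) * ψ (-u)) ∧
  Function.Bijective (pairZ n) ∧ Function.Bijective (pairZ n).flip

open TensorProduct in
/-- PPF: the pairing modulo `p` is perfect. -/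
def PPFStmt : Prop := ∀ (F : Type) [Field F] [Fintype F] (n : F[X]),
  n.Monic → Irreducible n → n.natDegree = 4 → ∀ (p : ℕ) [Fact p.Prime],
  ∃ B : (ZMod p ⊗[ℤ] heckeZ n) →ₗ[ZMod p] (ZMod p ⊗[ℤ] harm0 n) →ₗ[ZMod p] ZMod p,
    (∀ (θ : heckeZ n) (φ : harm0 n), B (1 ⊗ₜ θ) (1 ⊗ₜ φ) = ((pairZ n θ φ : ℤ) : ZMod p)) ∧
    Function.Bijective B ∧ Function.Bijective B.flip

end Pool.Agent.HK
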