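import Pool.Agent.Helper8_HK.LDefs

/-! Statements of the linear algebra part of squad HK (characteristic `p` and the rest). -/

namespace Pool.Agent.HK

open MvPolynomial

/-- RAD: the linear algebra theorem when `q` is invertible in `k`. -/
def RADStmt : Prop := ∀ (F L k : Type) [Field F] [Field L] [Field k] [Fintype F] [Fintype L]
  [DecidableEq F] [Algebra F L], Module.finrank F L = 4 → ∀ τ : L →ₗ[F] F, τ ≠ 0 →
  ((Fintype.card F : ℕ) : k) ≠ 0 → ∀ E : L → k, E 0 = 0 →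
  (∀ (a : F) (x : L), a ≠ 0 → E (algebraMap F L a * x) = E x) →
  (∀ M : L, M ≠ 0 → ∑ κ : L, (if τ (κ * M) = 1 then E κ⁻¹ else 0) = 0) →
  ∀ x, E x = 0

/-- REP: functions on `L` and reduced polynomials. -/
def REPStmt : Prop := ∀ (p r : ℕ) [Fact p.Prime] [NeZero r] (L k : Type) [Field L] [Field k]
  [Fintype L] [CharP k p], Fintype.card L = p ^ (4 * r) → ∀ σ : L →+* k,
  (∀ E : L → k, ∃ P : MvPolynomial (Ix r) k, Redu p P ∧ ∀ x, evL p σ P x = E x) ∧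
  (∀ P Q : MvPolynomial (Ix r) k, Redu p P → Redu p Q →
    (∀ x, evL p σ P x = evL p σ Q x) → P = Q)

/-- CFX: coefficients of reduced polynomials as power sums. -/
def CFXStmt : Prop := ∀ (p r : ℕ) [Fact p.Prime] [NeZero r] (L k : Type) [Field L] [Field k]
  [Fintype L] [CharP k p], Fintype.card L = p ^ (4 * r) → ∀ σ : L →+* k,
  ∀ P : MvPolynomial (Ix r) k, Redu p P →
  MvPolynomial.coeff 0 P = evL p σ P 0 ∧
  (∀ α : Ix r →₀ ℕ, (∀ j, α j < p) → 0 < NN p α → NN p α < p ^ (4 * r) - 1 →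
    MvPolynomial.coeff α P = - ∑ x : L, evL p σ P x * (σ x) ^ (p ^ (4 * r) - 1 - NN p α)) ∧
  (MvPolynomial.coeff (revE p 0) P = - ∑ x : L, evL p σ P x)

/-- REV: the reversed polynomial. -/
def REVStmt : Prop := ∀ (p r : ℕ) [Fact p.Prime] [NeZero r] (L k : Type) [Field L] [Field k]
  [Fintype L] [CharP k p], Fintype.card L = p ^ (4 * r) → ∀ σ : L →+* k,
  ∀ P : MvPolynomial (Ix r) k, Redu p P →
  Redu p (revP p P) ∧
  (∀ α : Ix r →₀ ℕ, (∀ j, α j < p) →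
    MvPolynomial.coeff α (revP p P) = MvPolynomial.coeff (revE p α) P) ∧
  (MvPolynomial.coeff 0 P = 0 → ∑ x : L, evL p σ P x = 0 →
    ∀ x, evL p σ (revP p P) x = evL p σ P x⁻¹)

/-- TAY: the Taylor operators `DD`. -/
def TAYStmt : Prop := ∀ (r : ℕ) [NeZero r] (k : Type) [Field k],
  (∀ (c : ZMod r → k) (P : MvPolynomial (Ix r) k),
    MvPolynomial.aeval (fun j : Ix r => X j + C (c j.2)) P =
      ∑ κ ∈ (tay P).support, C (∏ s, c s ^ κ s) * DD κ P) ∧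
  (∀ (κ : ZMod r →₀ ℕ) (P Q : MvPolynomial (Ix r) k), DD κ (P + Q) = DD κ P + DD κ Q) ∧
  (∀ (κ : ZMod r →₀ ℕ) (c : k) (P : MvPolynomial (Ix r) k), DD κ (C c * P) = C c * DD κ P) ∧
  (∀ P : MvPolynomial (Ix r) k, DD 0 P = P) ∧
  (∀ (κ κ' : ZMod r →₀ ℕ) (P : MvPolynomial (Ix r) k),
    DD κ (DD κ' P) = C (∏ s, (((κ s + κ' s).choose (κ s) : ℕ) : k)) * DD (κ + κ') P) ∧
  (∀ (p : ℕ) (κ : ZMod r →₀ ℕ) (P : MvPolynomial (Ix r) k), Redu p P → Redu p (DD κ P)) ∧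
  (∀ (p : ℕ) (c : ZMod r → k) (P : MvPolynomial (Ix r) k), Redu p P →
    Redu p (MvPolynomial.aeval (fun j : Ix r => X j + C (c j.2)) P : MvPolynomial (Ix r) k)) ∧
  (∀ (κ : ZMod r →₀ ℕ) (P : MvPolynomial (Ix r) k), ∀ β ∈ (DD κ P).support,
    ∃ α ∈ P.support, ∀ s, ld α s = ld β s + κ s)

/-- TRL: translations by elements of `F`. -/
def TRLStmt : Prop := ∀ (p r : ℕ) [Fact p.Prime] [NeZero r] (F L k : Type) [Field F] [Field L]
  [Field k] [Fintype F] [Fintype L] [Algebra F L] [CharP k p], Fintype.card F = p ^ r →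
  ∀ σ : L →+* k, ∀ (P : MvPolynomial (Ix r) k) (b : F) (x : L),
  evL p σ P (x + algebraMap F L b) =
    evL p σ (MvPolynomial.aeval
      (fun j : Ix r => X j + C ((σ (algebraMap F L b)) ^ (p ^ j.2.val))) P) x

/-- INV: invariance under `F^*`. -/
def INVStmt : Prop := ∀ (p r : ℕ) [Fact p.Prime] [NeZero r] (F L k : Type) [Field F] [Field L]
  [Field k] [Fintype F] [Fintype L] [Algebra F L] [CharP k p], Fintype.card F = p ^ r →
  Fintype.card L = p ^ (4 * r) → ∀ σ : L →+* k, ∀ P : MvPolynomial (Ix r) k, Redu p P →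
  (∀ (a : F) (x : L), a ≠ 0 → evL p σ P (algebraMap F L a * x) = evL p σ P x) →
  ∀ α ∈ P.support, (p ^ r - 1) ∣ ∑ s : ZMod r, ld α s * p ^ s.val

open Classical in
/-- HRM: the harmonic relation as a relation between `P` and its reversal. -/
def HRMStmt : Prop := ∀ (p r : ℕ) [Fact p.Prime] [NeZero r] (F L k : Type) [Field F] [Field L]
  [Field k] [Fintype F] [Fintype L] [Algebra F L] [CharP k p], Fintype.card F = p ^ r →
  Fintype.card L = p ^ (4 * r) → ∀ σ : L →+* k, ∀ P : MvPolynomial (Ix r) k, Redu p P →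
  MvPolynomial.coeff 0 P = 0 →
  (∀ x : L, evL p σ P x + ∑ c : F, evL p σ P ((x + algebraMap F L c)⁻¹) = 0) →
  P = ∑ κ ∈ (tay (revP p P)).support.filter
    (fun κ => κ ≠ 0 ∧ (p ^ r - 1) ∣ ∑ s : ZMod r, κ s * p ^ s.val), DD κ (revP p P)

open Classical in
/-- TUP: the support of `P`. -/
def TUPStmt : Prop := ∀ (p r : ℕ) [Fact p.Prime] [NeZero r] (k : Type) [Field k]
  (P : MvPolynomial (Ix r) k), Redu p P → MvPolynomial.coeff 0 P = 0 →
  (∀ α ∈ P.support, (p ^ r - 1) ∣ ∑ s : ZMod r, ld α s * p ^ s.val) →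
  (P = ∑ κ ∈ (tay (revP p P)).support.filter
    (fun κ => κ ≠ 0 ∧ (p ^ r - 1) ∣ ∑ s : ZMod r, κ s * p ^ s.val), DD κ (revP p P)) →
  TupS p P ∧ ((∀ α ∈ P.support, ¬ ∀ i, ld α i = p - 1) →
    ∀ α ∈ P.support, ¬ ∀ i, ld α i = 2 * (p - 1))

/-- HYP: the vanishing of the hyperplane sums kills the component of level degrees `p - 1`. -/
def HYPStmt : Prop := ∀ (p r : ℕ) [Fact p.Prime] [NeZero r] (F L k : Type) [Field F] [Field L]
  [Field k] [Fintype F] [Fintype L] [DecidableEq F] [Algebra F L] [CharP k p],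
  Fintype.card F = p ^ r → Module.finrank F L = 4 → ∀ σ : L →+* k,
  ∀ τ : L →ₗ[F] F, τ ≠ 0 → ∀ P : MvPolynomial (Ix r) k, Redu p P →
  MvPolynomial.coeff 0 P = 0 →
  (∀ (a : F) (x : L), a ≠ 0 → evL p σ P (algebraMap F L a * x) = evL p σ P x) →
  (∀ M : L, M ≠ 0 → ∑ κ : L, (if τ (κ * M) = 1 then evL p σ P κ⁻¹ else 0) = 0) →
  ∀ α ∈ P.support, ¬ ∀ i, ld α i = p - 1

/-- STR: translation invariance componentwise. -/
def STRStmt : Prop := ∀ (r : ℕ) [NeZero r] (k : Type) [Field k] (P : MvPolynomial (Ix r) k),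
  MvPolynomial.aeval (fun j : Ix r => X j + 1) P = P →
  ∀ (D : ZMod r → ℕ) (S : Finset (ZMod r →₀ ℕ)), 0 ∉ S →
  (∀ κ : ZMod r →₀ ℕ, κ ≠ 0 → κ ∉ S → comp (fun s => D s + κ s) P = 0) →
  ∑ κ ∈ S, DD κ (comp (fun s => D s + κ s) P) = 0

/-- CHN: the cyclic chain lemma. -/
def CHNStmt : Prop := ∀ (p r : ℕ), p.Prime → 2 ≤ r → ∀ (t t' : ZMod r → ℕ),
  (∀ i, t i = 1 ∨ t i = 2) → (∀ i, t' i = 1 ∨ t' i = 2) → ∀ m : ZMod r,
  ((∀ i, dt p t i ≤ dt p t' i + (if i = m then 1 else 0)) →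
    t' = t ∨ (t m = 1 ∧ t' m = 2)) ∧
  (t m = 1 → t (m + 1) = 2 → (∀ i, dt p t i ≤ dt p t' i + (if i = m then p else 0)) →
    t' = t ∨ (t' m = 2 ∧ t' (m + 1) = 2) ∨ t' = Function.update t (m + 1) 1)

/-- CLA: claim A. -/
def CLAStmt : Prop := ∀ (p r : ℕ) [Fact p.Prime] [NeZero r] (k : Type) [Field k] [CharP k p],
  2 ≤ r → ∀ P : MvPolynomial (Ix r) k, TupS p P →
  MvPolynomial.aeval (fun j : Ix r => X j + 1) P = P →
  ∀ (t : ZMod r → ℕ), (∀ i, t i = 1 ∨ t i = 2) → ∀ m, t m = 2 →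
  DD (Finsupp.single m 1) (comp (dt p t) P) = 0

/-- CLC: claim C. -/
def CLCStmt : Prop := ∀ (p r : ℕ) [Fact p.Prime] [NeZero r] (k : Type) [Field k] [CharP k p],
  2 ≤ r → ∀ P : MvPolynomial (Ix r) k, TupS p P →
  MvPolynomial.aeval (fun j : Ix r => X j + 1) P = P →
  ∀ (t : ZMod r → ℕ), (∀ i, t i = 1 ∨ t i = 2) → ∀ m, t m = 1 →
  DD (Finsupp.single m 1) (DD (Finsupp.single m 1) (comp (dt p t) P)) = 0

/-- CLB: claim B. -/
def CLBStmt : Prop := ∀ (p r : ℕ) [Fact p.Prime] [NeZero r] (k : Type) [Field k] [CharP k p],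
  2 ≤ r → ∀ P : MvPolynomial (Ix r) k, TupS p P →
  MvPolynomial.aeval (fun j : Ix r => X j + 1) P = P →
  ∀ (t : ZMod r → ℕ), (∀ i, t i = 1 ∨ t i = 2) → ∀ m, t m = 1 → t (m + 1) = 2 →
  comp (dt p (Function.update t (m + 1) 1)) P = 0 →
  DD (Finsupp.single m p) (comp (dt p t) P) = 0

/-- WLL: the four variable lemma. -/
def WLLStmt : Prop := ∀ (k : Type) [Field k] (y : MvPolynomial (Fin 4) k) (D0 d : ℕ),
  (∀ α ∈ y.support, (∀ i, α i ≤ D0) ∧ ∑ i, α i = d) →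
  (∀ β ∈ (MvPolynomial.aeval (fun i : Fin 4 => X i + 1) y - y :
    MvPolynomial (Fin 4) k).support, ∑ i, β i + 1 = d) →
  4 * D0 + 1 < 2 * d → y = 0

/-- KEW: vanishing of a component from claims B and C. -/
def KEWStmt : Prop := ∀ (p r : ℕ) [Fact p.Prime] [NeZero r] (k : Type) [Field k] [CharP k p]
  (Q : MvPolynomial (Ix r) k) (m : ZMod r), Redu p Q →
  (∀ α ∈ Q.support, ld α m = 2 * p - 1) →
  DD (Finsupp.single m p) Q = 0 →
  DD (Finsupp.single m 1) (DD (Finsupp.single m 1) Q) = 0 → Q = 0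

/-- KEY: the algebraic key theorem. -/
def KEYStmt : Prop := ∀ (p r : ℕ) [Fact p.Prime] [NeZero r] (k : Type) [Field k] [CharP k p]
  (P : MvPolynomial (Ix r) k), Redu p P → TupS p P →
  (∀ α ∈ P.support, ¬ ∀ i, ld α i = p - 1) → (∀ α ∈ P.support, ¬ ∀ i, ld α i = 2 * (p - 1)) →
  MvPolynomial.aeval (fun j : Ix r => X j + 1) P = P → P = 0

/-- LAP: the linear algebra theorem in characteristic `p`. -/
def LAPStmt : Prop := ∀ (F L k : Type) [Field F] [Field L] [Field k] [Fintype F] [Fintype L]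
  [DecidableEq F] [Algebra F L], Module.finrank F L = 4 → ∀ τ : L →ₗ[F] F, τ ≠ 0 →
  ((Fintype.card F : ℕ) : k) = 0 → ∀ E : L → k,
  (∀ (a b : F) (x : L), a ≠ 0 → E (algebraMap F L a * x + algebraMap F L b) = E x) →
  (∀ x : L, E x + ∑ c : F, E ((x + algebraMap F L c)⁻¹) = 0) →
  E 0 = 0 →
  (∀ M : L, M ≠ 0 → ∑ κ : L, (if τ (κ * M) = 1 then E κ⁻¹ else 0) = 0) →
  ∀ x, E x = 0

end Pool.Agent.HK
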