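import Pool.Agent.Helper8_HK.Stmt0
import Pool.Agent.Helper8_HK.Stmt1
import Pool.Agent.Helper8_HK.Stmt2
import Pool.Agent.Helper19_HK.LAU
import Pool.Agent.Helper47_HK.MTX
import Pool.Agent.Helper9_HK.VAL
import Pool.Agent.Helper76_HK.IWA
import Pool.Agent.Helper76_HK.RED
import Pool.Agent.Helper59_HK.ZER
import Pool.Agent.Helper59_HK.ZLV
import Pool.Agent.Helper34_HK.CosAtk
import Pool.Agent.Helper50_HK.CSP
import Pool.Agent.Helper50_HK.HMU
import Pool.Agent.Helper14_HK.DLT
import Pool.Agent.Helper14_HK.HPM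
import Pool.Agent.Helper97_HK.HWD
import Pool.Agent.Helper71_HK.Hri
import Pool.Agent.Helper71_HK.Hat
import Pool.Agent.Helper71_HK.Hst
import Pool.Agent.Helper84_HK.HTN
import Pool.Agent.Helper84_HK.KAP
import Pool.Agent.Helper7_HK.FRE
import Pool.Agent.Helper7_HK.CORE
import Pool.Agent.Helper7_HK.PPF
import Pool.Agent.Helper7_HK.REP
import Pool.Agent.Helper81_HK.FOU
import Pool.Agent.Helper97_HK.CMF
import Pool.Agent.Helper97_HK.PPZ
import Pool.Agent.Helper76_HK.LAT
import Pool.Agent.Helper76_HK.REV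
import Pool.Agent.Helper76_HK.STR
import Pool.Agent.Helper76_HK.TRL
import Pool.Agent.Helper85_HK.RAD
import Pool.Agent.Helper85_HK.ALG
import Pool.Agent.Helper64_HK.CFX
import Pool.Agent.Helper64_HK.HYP
import Pool.Agent.Helper1_HK.TAY
import Pool.Agent.Helper1_HK.WLL
import Pool.Agent.Helper23_HK.HRM
import Pool.Agent.Helper23_HK.LAP
import Pool.Agent.Helper54_HK.TUP
import Pool.Agent.Helper54_HK.CLA
import Pool.Agent.Helper54_HK.KEW
import Pool.Agent.Helper98_HK.CHN
import Pool.Agent.Helper98_HK.KEY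
import Pool.Agent.Helper38_HK.Clm

/-! Assembly of Part 1 of squad HK. -/

namespace Pool.Agent.HK

theorem lauT : LAUStmt := H19.lau
theorem mtxT : MTXStmt := H47.mtx
theorem valT : VALStmt := H9.val lauT mtxT
theorem iwaT : IWAStmt := H76.iwa lauT mtxT
theorem redT : REDStmt := H76.red iwaT lauT mtxT
theorem zerT : ZERStmt := H59.zer redT valT mtxT
theorem zlvT : ZLVStmt := H59.zlv zerT valT mtxT
theorem cosT : COSStmt := H34.cos mtxT
theorem atkT : ATKStmt := H34.atk mtxT valT
theorem cspT : CSPStmt := H50.csp lauT mtxT valT redT cosT atkT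
theorem dltT : DLTStmt := H14.dlt mtxT
theorem hpmT : HPMStmt := H14.hpm dltT mtxT
theorem hwdT : HWDStmt := H97.hwd hpmT valT mtxT
theorem hriT : HRIStmt := H71.hri valT lauT mtxT hpmT
theorem hatT : HATStmt := H71.hat hpmT
theorem htnT : HTNStmt := H84.htn zlvT atkT hwdT hriT cosT hpmT
theorem hmuT : HMUStmt := H50.hmu lauT mtxT
theorem hstT : HSTStmt := H71.hst hwdT hriT hatT htnT hmuT atkT
theorem freT : FREStmt := H7.fre zerT cosT mtxT
theorem fouT : FOUStmt := H81.fou valT
theorem cmfT : CMFStmt := H97.cmf valT lauT mtxT hpmT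
theorem kapT : KAPStmt := H84.kap
theorem radT : RADStmt := H85.rad
theorem repT : REPStmt := H7.rep
theorem cfxT : CFXStmt := H64.cfx
theorem revT : REVStmt := H76.rev_thm
theorem tayT : TAYStmt := H1.tay_thm
theorem trlT : TRLStmt := H76.trl
theorem invT : INVStmt := H76.inv_thm
theorem hrmT : HRMStmt := H23.hrm revT tayT trlT repT
theorem tupT : TUPStmt := H54.tup tayT
theorem hypT : HYPStmt := H64.hyp cfxT
theorem strT : STRStmt := H76.str tayT
theorem chnT : CHNStmt := H98.chn
theorem claT : CLAStmt := H54.cla tayT strT chnT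
theorem clcT : CLCStmt := H38.clc strT chnT tayT claT
theorem clbT : CLBStmt := H38.clb strT chnT tayT claT
theorem wllT : WLLStmt := H1.wll
theorem kewT : KEWStmt := H54.kew tayT wllT
theorem keyT : KEYStmt := H98.key clbT clcT kewT
theorem lapT : LAPStmt := H23.lap repT cfxT tayT trlT invT hrmT tupT hypT keyT
theorem latT : LATStmt := H76.lat radT lapT
theorem coreT : COREStmt := H7.core cmfT kapT latT zerT cosT valT atkT mtxT
theorem algT : ALGStmt := H85.alg
theorem ppzT : PPZStmt := H97.ppz coreT algT freT cspT hstT hwdT hmuT fouT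
theorem ppfT : PPFStmt := H7.ppf ppzT freT

end Pool.Agent.HK
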