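import Pool.Agent.Helper8_HK.MDefs

/-! Statements of Part 3 of squad HK: the field `C_∞` exists in our sense. -/

namespace Pool.Agent.HK

open Polynomial

/-- KNF: the completion of `F(T)` at infinity is a complete non-archimedean field. -/
def KNFStmt : Prop := ∀ (F : Type) [Field F] [Fintype F],
  ∃ (K : Type) (_ : NontriviallyNormedField K) (_ : CompleteSpace K) (_ : IsUltrametricDist K)
    (e : Kinf F ≃+* K), ∀ x : Kinf F, x ≠ 0 →
      ‖e x‖ = ((Fintype.card F : ℕ) : ℝ) ^ (-(HahnSeries.order x))

/-- ACP: characteristic `p` version of `IsAlgClosed.of_denseRange`. -/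
def ACPStmt : Prop := ∀ (p : ℕ) [Fact p.Prime] (K L : Type) [Field K] [NontriviallyNormedField L]
  [CompleteSpace L] [CharP L p] [IsUltrametricDist L] [Algebra K L] [IsAlgClosed K],
  DenseRange (algebraMap K L) → IsAlgClosed L

/-- CEX: existence of `C_∞`: a complete algebraically closed non-archimedean field containing
`Kinf F`, in which the elements algebraic over `Kinf F` are dense. -/
def CEXStmt : Prop := ∀ (F : Type) [Field F] [Fintype F],
  ∃ (C : Type) (_ : NormedField C) (_ : IsAlgClosed C) (_ : CompleteSpace C)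
    (_ : IsUltrametricDist C) (ι : Kinf F →+* C),
    NormOK ι ∧ Dense {z : C | ∃ P : Polynomial (Kinf F), P ≠ 0 ∧ P.eval₂ ι z = 0}

end Pool.Agent.HK
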