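import Pool.Agent.Helper8_HK.All1
import Pool.Agent.Helper8_HK.Stmt3
import Pool.Agent.Helper34_HK.Bfi
import Pool.Agent.Helper66_HK.BNC
import Pool.Agent.Helper4_HK.CAU
import Pool.Agent.Helper31_HK.CUS
import Pool.Agent.Helper20_HK.CUT
import Pool.Agent.Helper97_HK.DFN
import Pool.Agent.Helper14_HK.DIG
import Pool.Agent.Helper23_HK.ELM
import Pool.Agent.Helper7_HK.Exp
import Pool.Agent.Helper17_HK.FDM
import Pool.Agent.Helper9_HK.HKM
import Pool.Agent.Helper48_HK.HOL
import Pool.Agent.Helper59_HK.IMA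
import Pool.Agent.Helper18_HK.IMM
import Pool.Agent.Helper63_HK.INT
import Pool.Agent.Helper79_HK.KFL
import Pool.Agent.Helper59_HK.KHA
import Pool.Agent.Helper75_HK.KIW
import Pool.Agent.Helper63_HK.KSM
import Pool.Agent.Helper20_HK.LIP
import Pool.Agent.Helper9_HK.MFD
import Pool.Agent.Helper79_HK.NIC
import Pool.Agent.Helper14_HK.POW
import Pool.Agent.Helper7_HK.Res
import Pool.Agent.Helper66_HK.RKM
import Pool.Agent.Helper17_HK.RKN
import Pool.Agent.Helper4_HK.SCH
import Pool.Agent.Helper18_HK.SLA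
import Pool.Agent.Helper35_HK.TBB
import Pool.Agent.Helper98_HK.TEX
import Pool.Agent.Helper35_HK.UNQ
import Pool.Agent.Helper98_HK.BTM
import Pool.Agent.Helper8_HK.Stmt4
import Pool.Agent.Helper17_HK.ACP
import Pool.Agent.Helper17_HK.CEX
import Pool.Agent.Helper59_HK.KNF

/-! Assembly of Part 2 of squad HK. -/

namespace Pool.Agent.HK

theorem imaT : IMAStmt := H59.ima
theorem immT : IMMStmt := H18.imm imaT mtxT
theorem slaT : SLAStmt := H18.sla immT mtxT
theorem elmT : ELMStmt := H23.elm
theorem holT : HOLStmt := H48.hol immT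
theorem schT : SCHStmt := H4.sch imaT
theorem resT : RESStmt := H7.res_thm schT elmT
theorem nicT : NICStmt := H79.nic imaT elmT
theorem kiwT : KIWStmt := H75.kiw resT nicT holT immT elmT imaT
theorem kflT : KFLStmt := H79.kfl resT nicT holT
theorem ksmT : KSMStmt := H63.ksm resT nicT holT elmT imaT mtxT
theorem khaT : KHAStmt := H59.kha kiwT kflT ksmT slaT holT nicT resT
theorem cauT : CAUStmt := H4C.cau resT nicT elmT holT slaT
theorem fdmT : FDMStmt := H17.fdm imaT immT mtxT lauT
theorem texT : TEXStmt := H98.tex lauT imaT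
theorem tbbT : TBBStmt := H35.tbb imaT
theorem bncT : BNCStmt := H66.bnc fdmT cosT slaT holT tbbT texT imaT mtxT
theorem intT : INTStmt := H63.int valT lauT imaT
theorem lipT : LIPStmt := H20.lip lauT imaT tbbT
theorem expT : EXPStmt := H7.exp_thm cauT khaT tbbT texT intT lipT slaT
theorem unqT : UNQStmt := H35.unq tbbT texT
theorem cusT : CUSStmt := H31.cus bncT holT khaT expT unqT slaT
theorem cutT : CUTStmt := H20.cut expT khaT cosT slaT mtxT valT holT lauT
theorem hkmT : HKMStmt := H9.hkm slaT holT khaT cusT cutT hpmT hstT bncT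
theorem bfiT : BFIStmt := H34.bfi expT unqT bncT mtxT
theorem powT : POWStmt := H14.pow
theorem digT : DIGStmt := H14.dig lauT imaT
theorem rknT : RKNStmt := H17R.rkn digT intT lipT valT lauT
theorem mfdT : MFDStmt := H9.mfd hkmT zerT cosT cauT khaT bncT cusT hmuT
theorem btmT : BTMStmt := H98.btm intT lipT valT lauT mtxT hpmT hwdT powT tbbT
theorem rkmT : RKMStmt := H66.rkm hkmT bfiT btmT rknT cmfT coreT cauT cusT bncT texT khaT slaT
theorem dfnT : DFNStmt := H97.dfn mfdT rkmT unqT slaT
theorem knfT : KNFStmt := H59K.knf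
theorem acpT : ACPStmt := H17A.acp
theorem cexT : CEXStmt := H17C.cex knfT acpT

end Pool.Agent.HK
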