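import Mathlib

/-!
Definitions for MP_574a97_nt (Hecke pairings for a prime level of degree 4).

`Kinf F` is the completion of `F(T)` at infinity, realised as the field of Laurent series in the
uniformizer `unif = 1/T`.  `emb` is the embedding of the polynomial ring, `T ↦ 1/unif`.
A function on the oriented edges of the Bruhat-Tits tree of `PGL_2(Kinf)` is a function on
`GL_2(Kinf)` that is right invariant under the centre and the Iwahori group.
-/

namespace Pool.Agent.HK

open Polynomial

section Field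

variable (F : Type) [Field F]

/-- The completion of `F(T)` at infinity: Laurent series in `1/T`. -/
abbrev Kinf : Type := LaurentSeries F

/-- The group `GL_2` of the completion. -/
abbrev GLK : Type := Matrix.GeneralLinearGroup (Fin 2) (Kinf F)

/-- The group `GL_2` of the polynomial ring. -/
abbrev GLA : Type := Matrix.GeneralLinearGroup (Fin 2) F[X]

/-- The uniformizer `1/T`. -/
noncomputable def unif : Kinf F := HahnSeries.single (1 : ℤ) (1 : F)

/-- Constants. -/
noncomputable def cst : F →+* Kinf F := HahnSeries.C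

/-- The embedding of the polynomial ring, `T ↦ 1/unif`. -/
noncomputable def emb : F[X] →+* Kinf F :=
  Polynomial.eval₂RingHom (cst F) (HahnSeries.single (-1 : ℤ) (1 : F))

end Field

section Elem

variable {F : Type} [Field F]

/-- `InO k x`: the element `x` lies in the `k`-th power (times the ring of integers) of the
maximal ideal, that is, all coefficients of `x` below `k` vanish. -/
def InO (k : ℤ) (x : Kinf F) : Prop := ∀ i : ℤ, i < k → HahnSeries.coeff x i = 0

open Classical in
/-- The matrix with rows `(a,b)` and `(c,d)` as an element of `GL_2` (junk value `1` when the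
determinant vanishes). -/
noncomputable def mat (a b c d : Kinf F) : GLK F :=
  if h : (Matrix.of ![![a, b], ![c, d]]).det ≠ 0 then
    Matrix.GeneralLinearGroup.mkOfDetNeZero (Matrix.of ![![a, b], ![c, d]]) h
  else 1

/-- The scalar matrix. -/
noncomputable def scal (z : Kinf F) : GLK F := mat z 0 0 z

/-- The matrix reversing the orientation of the standard edge. -/
noncomputable def flipM : GLK F := mat 0 1 (unif F) 0

/-- The Iwahori subgroup (lower left entry divisible by the uniformizer). -/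
def Iwahori : Set (GLK F) :=
  {k | InO 0 (k 0 0) ∧ InO 0 (k 0 1) ∧ InO 1 (k 1 0) ∧ InO 0 (k 1 1) ∧
    HahnSeries.coeff (k 0 0) 0 ≠ 0 ∧ HahnSeries.coeff (k 1 1) 0 ≠ 0}

/-- `GL_2` of the polynomial ring inside `GL_2` of the completion. -/
noncomputable def toK : GLA F →* GLK F := Matrix.GeneralLinearGroup.map (emb F)

/-- The congruence group `Γ_0(n)`. -/
def Gam0 (n : F[X]) : Set (GLA F) := {γ | n ∣ γ 1 0}

/-- Harmonic cochains on the Bruhat-Tits tree, with values in `R`: functions on
`GL_2(Kinf)/(centre · Iwahori)` (= oriented edges), alternating under the reversal of the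
edge, and such that the sum over the edges with given origin vanishes
(the matrices `1` and `(u,1;1,0)`, `u ∈ F`, represent `GL_2(O)/Iwahori`). -/
structure IsHarm [Fintype F] {R : Type} [AddCommGroup R] (φ : GLK F → R) : Prop where
  inv : ∀ (g : GLK F) (z : Kinf F) (k : GLK F), z ≠ 0 → k ∈ Iwahori → φ (g * scal z * k) = φ g
  rev : ∀ g : GLK F, φ (g * flipM) = - φ g
  sum : ∀ g : GLK F, φ g + ∑ u : F, φ (g * mat (cst F u) 1 1 0) = 0

/-- Invariance under `Γ_0(n)`. -/
def Invt (n : F[X]) {R : Type} (φ : GLK F → R) : Prop :=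
  ∀ γ ∈ Gam0 n, ∀ g : GLK F, φ (toK γ * g) = φ g

/-- Finite support modulo `Γ_0(n)`. -/
def FinSupp (n : F[X]) {R : Type} [Zero R] (φ : GLK F → R) : Prop :=
  ∃ S : Finset (GLK F), ∀ g : GLK F, φ g ≠ 0 →
    ∃ γ ∈ Gam0 n, ∃ s ∈ S, ∃ z : Kinf F, z ≠ 0 ∧ ∃ k ∈ Iwahori, g = toK γ * s * scal z * k

/-- The value `F(π^k, u)` on the edge `(π^k, u; 0, 1)`. -/
noncomputable def val {R : Type} (φ : GLK F → R) (k : ℤ) (u : Kinf F) : R :=
  φ (mat (unif F ^ k) u 0 1)

/-- The index set of the Hecke operator `T_m`: triples `(a, b, d)` with `a, d` monic, `a d = m`,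
`a` prime to `n` and `deg b < deg d`. -/
def HIdx (n m : F[X]) : Set (F[X] × F[X] × F[X]) :=
  {x | x.1.Monic ∧ x.2.2.Monic ∧ x.1 * x.2.2 = m ∧ IsCoprime x.1 n ∧ x.2.1.degree < x.2.2.degree}

/-- The matrix `(a, b; 0, d)`. -/
noncomputable def hmat (x : F[X] × F[X] × F[X]) : GLK F :=
  mat (emb F x.1) (emb F x.2.1) 0 (emb F x.2.2)

/-- The Hecke operator `T_m` on functions on `GL_2(Kinf)`. -/
noncomputable def hecke (n m : F[X]) {R : Type} [AddCommMonoid R] (φ : GLK F → R) :
    GLK F → R :=
  fun g => ∑ᶠ x ∈ HIdx n m, φ (hmat x * g)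

/-- The matrix of the Atkin-Lehner involution. -/
noncomputable def Wmat (n : F[X]) : GLK F := mat 0 (-1) (emb F n) 0

/-- The Atkin-Lehner involution. -/
noncomputable def atk (n : F[X]) {R : Type} (φ : GLK F → R) : GLK F → R :=
  fun g => φ (Wmat n * g)

/-- Harmonic, `Γ_0(n)`-invariant cochains with vanishing values at the two cusps. -/
structure Cusp [Fintype F] (n : F[X]) {R : Type} [AddCommGroup R] (φ : GLK F → R) : Prop where
  harm : IsHarm φ
  invt : Invt n φ
  rinf : val φ 1 0 = 0
  rzero : val (atk n φ) 1 0 = 0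

/-- The `ℤ`-module of cuspidal `Γ_0(n)`-invariant harmonic cochains (finite support modulo
`Γ_0(n)`). -/
def harm0 [Fintype F] (n : F[X]) : Submodule ℤ (GLK F → ℤ) where
  carrier := {φ | IsHarm φ ∧ Invt n φ ∧ FinSupp n φ}
  add_mem' := by
    classical
    rintro φ ψ ⟨h1, h2, S, h3⟩ ⟨h4, h5, S', h6⟩
    refine ⟨⟨fun g z k hz hk => ?_, fun g => ?_, fun g => ?_⟩, fun γ hγ g => ?_, S ∪ S', fun g hg => ?_⟩
    · simp only [Pi.add_apply, h1.inv g z k hz hk, h4.inv g z k hz hk]
    · simp only [Pi.add_apply, h1.rev g, h4.rev g]; ring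
    · have e1 := h1.sum g
      have e2 := h4.sum g
      simp only [Pi.add_apply, Finset.sum_add_distrib]
      linarith
    · simp only [Pi.add_apply, h2 γ hγ g, h5 γ hγ g]
    · by_cases hφ : φ g = 0
      · have hψ : ψ g ≠ 0 := fun h => hg (by simp [hφ, h])
        obtain ⟨γ, hγ, s, hs, r⟩ := h6 g hψ
        exact ⟨γ, hγ, s, Finset.mem_union_right _ hs, r⟩
      · obtain ⟨γ, hγ, s, hs, r⟩ := h3 g hφ
        exact ⟨γ, hγ, s, Finset.mem_union_left _ hs, r⟩
  zero_mem' := by
    refine ⟨⟨fun _ _ _ _ _ => rfl, fun _ => by simp, fun _ => by simp⟩, fun _ _ _ => rfl, ∅, fun g hg => ?_⟩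
    exact absurd rfl hg
  smul_mem' := by
    rintro c φ ⟨h1, h2, S, h3⟩
    refine ⟨⟨fun g z k hz hk => ?_, fun g => ?_, fun g => ?_⟩, fun γ hγ g => ?_, S, fun g hg => ?_⟩
    · simp only [Pi.smul_apply, h1.inv g z k hz hk]
    · simp only [Pi.smul_apply, h1.rev g, smul_neg]
    · have e1 := h1.sum g
      simp only [Pi.smul_apply, ← Finset.smul_sum, ← smul_add, e1, smul_zero]
    · simp only [Pi.smul_apply, h2 γ hγ g]
    · exact h3 g (fun h => hg (by simp [h]))

/-- The Hecke algebra: the subalgebra of the endomorphisms of `harm0 n` generated by all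
Hecke operators `T_m` (`m` monic, that is, all nonzero ideals of `F[X]`). -/
def heckeZ [Fintype F] (n : F[X]) : Subalgebra ℤ (Module.End ℤ (harm0 n)) :=
  Algebra.adjoin ℤ {θ | ∃ m : F[X], m.Monic ∧
    ∀ φ : harm0 n, ((θ φ : harm0 n) : GLK F → ℤ) = hecke n m (φ : GLK F → ℤ)}

/-- The first Fourier coefficient `c_1(φ) = - φ(π^2, π; 0, 1)`
(see the clause on additive characters in the final theorem). -/
noncomputable def c1 [Fintype F] (n : F[X]) : harm0 n →ₗ[ℤ] ℤ where
  toFun φ := - val (φ : GLK F → ℤ) 2 (unif F)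
  map_add' φ ψ := by simp [val]; ring
  map_smul' c φ := by simp [val]

/-- The pairing `(θ, φ) ↦ c_1(θ φ)`. -/
noncomputable def pairZ [Fintype F] (n : F[X]) : heckeZ n →ₗ[ℤ] harm0 n →ₗ[ℤ] ℤ where
  toFun θ := (c1 n).comp (θ : Module.End ℤ (harm0 n))
  map_add' θ η := by ext φ; simp
  map_smul' c θ := by ext φ; simp

end Elem

end Pool.Agent.HK
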