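import Pool.Agent.Helper8_HK.MDefs

/-!
Definitions for the final statement of squad HK: the modules of forms and the Hecke algebras as
types, reduction modulo `p`, and perfect pairings.
-/

namespace Pool.Agent.HK

open Polynomial
open scoped TensorProduct

/-- `β : A × B → R` is a perfect pairing of `R`-modules: it is bilinear, every linear form on `A`
is `β(·, b)` for a unique `b` and every linear form on `B` is `β(a, ·)` for a unique `a`. -/
structure Perf (R A B : Type) [CommRing R] [AddCommGroup A] [Module R A] [AddCommGroup B]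
    [Module R B] (β : A → B → R) : Prop where
  add_left : ∀ (a a' : A) (b : B), β (a + a') b = β a b + β a' b
  smul_left : ∀ (r : R) (a : A) (b : B), β (r • a) b = r * β a b
  add_right : ∀ (a : A) (b b' : B), β a (b + b') = β a b + β a b'
  smul_right : ∀ (r : R) (a : A) (b : B), β a (r • b) = r * β a b
  dual_left : ∀ g : A →ₗ[R] R, ∃! b : B, ∀ a : A, g a = β a b
  dual_right : ∀ g : B →ₗ[R] R, ∃! a : A, ∀ b : B, g b = β a b

section Alg

variable {R M : Type} [CommRing R] [AddCommGroup M] [Module R M]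

/-- The `R`-algebra of endomorphisms of `M` generated by a set of operators, as a type. -/
def OpAlg (S : Set (Module.End R M)) : Type := ↥(Algebra.adjoin R S)

noncomputable instance instOA (S : Set (Module.End R M)) : AddCommGroup (OpAlg S) :=
  (inferInstance : AddCommGroup ↥(Algebra.adjoin R S))

noncomputable instance instOM (S : Set (Module.End R M)) : Module R (OpAlg S) :=
  (inferInstance : Module R ↥(Algebra.adjoin R S))

/-- The operator. -/
def OpAlg.op {S : Set (Module.End R M)} (θ : OpAlg S) : Module.End R M := θ.1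

/-- The pairing `(θ, f) ↦ l (θ f)` between the algebra generated by `S` and `M` is perfect. -/
def PerfOp (S : Set (Module.End R M)) (l : M →ₗ[R] R) : Prop :=
  Perf R (OpAlg S) M (fun θ f => l (θ.op f))

end Alg

section Red

/-- The reduction `M ⊗ ℤ/p`. -/
def Red (p : ℕ) (M : Type) [AddCommGroup M] : Type := ZMod p ⊗[ℤ] M

noncomputable instance instRA (p : ℕ) (M : Type) [AddCommGroup M] : AddCommGroup (Red p M) :=
  (inferInstance : AddCommGroup (ZMod p ⊗[ℤ] M))

noncomputable instance instRM (p : ℕ) (M : Type) [AddCommGroup M] : Module (ZMod p) (Red p M) :=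
  (inferInstance : Module (ZMod p) (ZMod p ⊗[ℤ] M))

/-- The class `x ⊗ 1` of `x`. -/
noncomputable def red (p : ℕ) {M : Type} [AddCommGroup M] (x : M) : Red p M :=
  (1 : ZMod p) ⊗ₜ[ℤ] x

/-- The reduction modulo `p` of the pairing `(θ, f) ↦ l (θ f)` is perfect over `ℤ/p`. -/
def PerfOpMod (p : ℕ) [Fact p.Prime] {M : Type} [AddCommGroup M] (S : Set (Module.End ℤ M))
    (l : M →ₗ[ℤ] ℤ) : Prop :=
  ∃ β : Red p (OpAlg S) → Red p M → ZMod p,
    (∀ (θ : OpAlg S) (f : M), β (red p θ) (red p f) = ((l (θ.op f) : ℤ) : ZMod p)) ∧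
    Perf (ZMod p) (Red p (OpAlg S)) (Red p M) β

end Red

section Z

variable {F : Type} [Field F] [Fintype F]

/-- The group `Harm_0(n, ℤ)` of cuspidal harmonic cochains. -/
def HZ (n : F[X]) : Type := ↥(harm0 n)

noncomputable instance instHZ (n : F[X]) : AddCommGroup (HZ n) :=
  (inferInstance : AddCommGroup ↥(harm0 n))

/-- The underlying function of a cochain. -/
def HZ.fn {n : F[X]} (φ : HZ n) : GLK F → ℤ := φ.1

/-- The Hecke operators `T_m`, `m` monic, on `Harm_0(n, ℤ)`. -/
def TZs (n : F[X]) : Set (Module.End ℤ (HZ n)) :=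
  {θ | ∃ m : F[X], m.Monic ∧ ∀ φ : HZ n, (θ φ).fn = hecke n m φ.fn}

/-- The functional `l` is the Fourier coefficient `c_1` for every nontrivial character `ψ` of
`F`: `c_1(φ) = q⁻¹ Σ_u φ(π^2, u π; 0, 1) ψ(-u)`. -/
def IsC1 (n : F[X]) (l : HZ n →ₗ[ℤ] ℤ) : Prop :=
  ∀ (φ : HZ n) (ψ : AddChar F ℂ), ψ ≠ 1 → ((l φ : ℤ) : ℂ) =
    ((Fintype.card F : ℂ))⁻¹ * ∑ u : F, ((val φ.fn 2 (cst F u * unif F) : ℤ) : ℂ) * ψ (-u)

/-- `Harm_0(n, ℤ)` is free of finite rank and stable under all `T_m`, and the pairing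
`(θ, φ) ↦ c_1(θ φ)` between `T(n, ℤ)`, the algebra generated by all `T_m`, and `Harm_0(n, ℤ)` is
perfect, and stays perfect modulo every prime number. -/
def PerfectHC (n : F[X]) : Prop :=
  (∀ m : F[X], m.Monic → ∀ φ : HZ n, ∃ ψ : HZ n, ψ.fn = hecke n m φ.fn) ∧
  Module.Finite ℤ (HZ n) ∧ Module.Free ℤ (HZ n) ∧
  ∃ l : HZ n →ₗ[ℤ] ℤ, IsC1 n l ∧ PerfOp (TZs n) l ∧ ∀ (p : ℕ) [Fact p.Prime], PerfOpMod p (TZs n) l

end Z

section M

variable {F : Type} [Field F] [Fintype F] {C : Type} [NormedField C]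

/-- The space of doubly cuspidal Drinfeld modular forms of weight 2 and type 1. -/
def DM (ι : Kinf F →+* C) (n : F[X]) : Type := ↥(dcM ι n)

noncomputable instance instDM (ι : Kinf F →+* C) (n : F[X]) : AddCommGroup (DM ι n) :=
  (inferInstance : AddCommGroup ↥(dcM ι n))

noncomputable instance instDMM (ι : Kinf F →+* C) (n : F[X]) : Module C (DM ι n) :=
  (inferInstance : Module C ↥(dcM ι n))

/-- The underlying function of a form. -/
def DM.fn {ι : Kinf F →+* C} {n : F[X]} (f : DM ι n) : C → C := f.1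

/-- The Hecke operators `T_m`, `m` monic, on doubly cuspidal forms. -/
def TMs (ι : Kinf F →+* C) (n : F[X]) : Set (Module.End C (DM ι n)) :=
  {θ | ∃ m : F[X], m.Monic ∧ ∀ f : DM ι n, (θ f).fn = heckeC ι n m f.fn}

/-- The functional `l` is the coefficient `b_1(f)` of `(t_1/c)^q` in the expansion of `f` at the
cusp at infinity. -/
def IsB1 (ι : Kinf F →+* C) (n : F[X]) (c : C) (l : DM ι n →ₗ[C] C) : Prop :=
  ∀ (f : DM ι n) (a : ℕ → C), HasExp ι c 1 f.fn a → l f = a (Fintype.card F)

/-- Doubly cuspidal forms are stable under all `T_m` and the pairing `(θ, f) ↦ b_1(θ f)` between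
the algebra generated by all `T_m` and the space of doubly cuspidal forms is perfect, for any
normalisation `t/c` of the parameter at infinity. -/
def PerfectDMF (ι : Kinf F →+* C) (n : F[X]) : Prop :=
  (∀ m : F[X], m.Monic → ∀ f : DM ι n, ∃ g : DM ι n, g.fn = heckeC ι n m f.fn) ∧
  ∀ c : C, c ≠ 0 → ∃ l : DM ι n →ₗ[C] C, IsB1 ι n c l ∧ PerfOp (TMs ι n) l

end M

theorem perf_of {R A B : Type} [CommRing R] [AddCommGroup A] [Module R A] [AddCommGroup B]
    [Module R B] (β : A →ₗ[R] B →ₗ[R] R) (h1 : Function.Bijective β)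
    (h2 : Function.Bijective β.flip) : Perf R A B (fun a b => β a b) where
  add_left a a' b := by simp
  smul_left r a b := by simp
  add_right a b b' := by simp
  smul_right r a b := by simp
  dual_left g := by
    obtain ⟨b, hb⟩ := h2.2 g
    refine ⟨b, fun a => by rw [← hb]; rfl, fun b' hb' => h2.1 ?_⟩
    rw [hb]
    ext a
    exact (hb' a).symm
  dual_right g := by
    obtain ⟨a, ha⟩ := h1.2 g
    refine ⟨a, fun b => by rw [← ha], fun a' ha' => h1.1 ?_⟩
    rw [ha]
    ext b
    exact (ha' b).symm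

end Pool.Agent.HK
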