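import Mathlib

/-! Definitions for the linear algebra part of squad HK: reduced polynomials in the variables
`X (i, s)`, `i < 4`, `s` modulo `r`, where `X (i, s)` stands for `x ^ (p ^ (s + r i))`. -/

namespace Pool.Agent.HK

open MvPolynomial

/-- The index set of the variables. -/
abbrev Ix (r : ℕ) : Type := Fin 4 × ZMod r

/-- Evaluation of a polynomial as a function on a field `L`, through `σ : L → k`. -/
noncomputable def evL (p : ℕ) {r : ℕ} {L k : Type} [Field L] [Field k] (σ : L →+* k)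
    (P : MvPolynomial (Ix r) k) (x : L) : k :=
  MvPolynomial.eval (fun j : Ix r => (σ x) ^ (p ^ (j.2.val + r * (j.1 : ℕ)))) P

/-- Reduced: degree less than `p` in every variable. -/
def Redu (p : ℕ) {r : ℕ} {k : Type} [Field k] (P : MvPolynomial (Ix r) k) : Prop :=
  ∀ α ∈ P.support, ∀ j, α j < p

/-- The degree of a monomial in the variables of level `s`. -/
def ld {r : ℕ} (α : Ix r →₀ ℕ) (s : ZMod r) : ℕ := ∑ i : Fin 4, α (i, s)

/-- The exponent of `x` encoded by a monomial. -/
def NN (p : ℕ) {r : ℕ} [NeZero r] (α : Ix r →₀ ℕ) : ℕ :=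
  ∑ j : Ix r, α j * p ^ (j.2.val + r * (j.1 : ℕ))

/-- The Taylor expansion `P(X_{i,s} + Y_s)`. -/
noncomputable def tay {r : ℕ} {k : Type} [Field k] :
    MvPolynomial (Ix r) k →ₐ[k] MvPolynomial (ZMod r) (MvPolynomial (Ix r) k) :=
  MvPolynomial.aeval (fun j : Ix r => MvPolynomial.C (MvPolynomial.X j) + MvPolynomial.X j.2)

/-- The coefficient of `Y^κ` in `P(X_{i,s} + Y_s)`. -/
noncomputable def DD {r : ℕ} {k : Type} [Field k] (κ : ZMod r →₀ ℕ)
    (P : MvPolynomial (Ix r) k) : MvPolynomial (Ix r) k :=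
  MvPolynomial.coeff κ (tay P)

/-- The reversed exponent. -/
noncomputable def revE (p : ℕ) {r : ℕ} [NeZero r] (α : Ix r →₀ ℕ) : Ix r →₀ ℕ :=
  Finsupp.equivFunOnFinite.symm (fun j => p - 1 - α j)

/-- The reversed polynomial. -/
noncomputable def revP (p : ℕ) {r : ℕ} [NeZero r] {k : Type} [Field k]
    (P : MvPolynomial (Ix r) k) : MvPolynomial (Ix r) k :=
  ∑ α ∈ P.support, MvPolynomial.monomial (revE p α) (MvPolynomial.coeff α P)

open Classical in
/-- The component of level degrees `d`. -/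
noncomputable def comp {r : ℕ} {k : Type} [Field k] (d : ZMod r → ℕ)
    (P : MvPolynomial (Ix r) k) : MvPolynomial (Ix r) k :=
  ∑ α ∈ P.support.filter (fun α => ∀ s, ld α s = d s),
    MvPolynomial.monomial α (MvPolynomial.coeff α P)

/-- The level degrees of a tuple `t`. -/
def dt (p : ℕ) {r : ℕ} (t : ZMod r → ℕ) : ZMod r → ℕ := fun i => p * t (i + 1) - t i

/-- The support condition: every monomial comes from a tuple with entries in `{1, 2}`. -/
def TupS (p : ℕ) {r : ℕ} {k : Type} [Field k] (P : MvPolynomial (Ix r) k) : Prop :=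
  ∀ α ∈ P.support, ∃ t : ZMod r → ℕ, (∀ i, t i = 1 ∨ t i = 2) ∧
    ∀ i, ld α i + t i = p * t (i + 1)

end Pool.Agent.HK
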