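import Pool.Agent.Helper8_HK.Defs

/-!
Definitions for the Drinfeld modular forms part of squad HK.

`C` is a complete algebraically closed field with a non-archimedean absolute value and `ι` is an
embedding of the completion `Kinf F` with `‖ι x‖ = q ^ (- order x)`; the field `C_∞` of the
problem (the completion of an algebraic closure of `Kinf F`) is such a field.
-/

namespace Pool.Agent.HK

open Polynomial

/-- The absolute value of `Kinf F` is the restriction of the one of `C`. -/
def NormOK {F : Type} [Field F] [Fintype F] {C : Type} [NormedField C]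
    (ι : Kinf F →+* C) : Prop :=
  ∀ x : Kinf F, x ≠ 0 → ‖ι x‖ = ((Fintype.card F : ℕ) : ℝ) ^ (-(HahnSeries.order x))

section

variable {F : Type} [Field F] [Fintype F] {C : Type} [NormedField C] (ι : Kinf F →+* C)

/-- Drinfeld's upper half plane `C \ Kinf`. -/
def Om : Set C := {z | ∀ x : Kinf F, z ≠ ι x}

/-- The imaginary part `|z|_i`, the distance to `Kinf`. -/
noncomputable def imz (z : C) : ℝ := ⨅ x : Kinf F, ‖z - ι x‖

/-- The affinoid `Ω_N`. -/
def OmN (N : ℕ) : Set C :=
  {z | ‖z‖ ≤ ((Fintype.card F : ℕ) : ℝ) ^ N ∧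
    ∀ x : Kinf F, (((Fintype.card F : ℕ) : ℝ) ^ N)⁻¹ ≤ ‖z - ι x‖}

/-- Rigid analytic functions on the upper half plane: on every `Ω_N` a uniform limit of rational
functions without poles on `Ω_N`. -/
def IsHolo (f : C → C) : Prop :=
  ∀ (N : ℕ) (ε : ℝ), 0 < ε → ∃ P Q : Polynomial C, (∀ z ∈ OmN ι N, Q.eval z ≠ 0) ∧
    ∀ z ∈ OmN ι N, ‖f z - P.eval z / Q.eval z‖ < ε

/-- The action of weight 2 and type 1: `(f|g)(z) = det g (c z + d)^(-2) f(g z)`. -/
noncomputable def slash (g : GLK F) (f : C → C) (z : C) : C :=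
  ι (g 0 0 * g 1 1 - g 0 1 * g 1 0) * ((ι (g 1 0) * z + ι (g 1 1)) ^ 2)⁻¹ *
    f ((ι (g 0 0) * z + ι (g 0 1)) / (ι (g 1 0) * z + ι (g 1 1)))

/-- The function `t_b(z) = sum over the multiples β of b of 1/(z - β)` (up to a constant factor the
uniformizer at a cusp with translation lattice `b A`). -/
noncomputable def tb (b : F[X]) (z : C) : C := ∑' a : F[X], (z - ι (emb F (b * a)))⁻¹

/-- `f = sum of a_i (t_b/c)^i` near the cusp. -/
def HasExp (c : C) (b : F[X]) (f : C → C) (a : ℕ → C) : Prop :=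
  ∃ R : ℝ, ∀ z ∈ Om ι, R ≤ imz ι z → HasSum (fun i : ℕ => a i * (c⁻¹ * tb ι b z) ^ i) (f z)

open Classical in
/-- Doubly cuspidal Drinfeld modular forms of weight 2 and type 1 for `Γ_0(n)`, `n` prime
(functions on `C` vanishing outside the upper half plane).  The translation lattice of the cusp
`γ ∞` is `A` when `n` divides the lower left entry of `γ` and `n A` otherwise. -/
structure IsDC (n : F[X]) (f : C → C) : Prop where
  off : ∀ z, z ∉ Om ι → f z = 0
  holo : IsHolo ι f
  modular : ∀ γ ∈ Gam0 n, slash ι (toK γ) f = f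
  cusp : ∀ γ : GLA F, ∃ a : ℕ → C, a 0 = 0 ∧ a 1 = 0 ∧
    HasExp ι 1 (if n ∣ γ 1 0 then 1 else n) (slash ι (toK γ) f) a

/-- The Hecke operator `T_m` on functions on the upper half plane. -/
noncomputable def heckeC (n m : F[X]) (f : C → C) : C → C :=
  fun z => ∑ᶠ x ∈ HIdx n m, slash ι (hmat x) f z

end

section Space

variable {F : Type} [Field F] [Fintype F] {C : Type} [NormedField C]

theorem IsHolo.add {ι : Kinf F →+* C} {f g : C → C} (hf : IsHolo ι f) (hg : IsHolo ι g) :
    IsHolo ι (f + g) := by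
  intro N ε hε
  obtain ⟨P, Q, h1, h2⟩ := hf N (ε / 2) (by positivity)
  obtain ⟨P', Q', h3, h4⟩ := hg N (ε / 2) (by positivity)
  refine ⟨P * Q' + P' * Q, Q * Q', fun z hz => ?_, fun z hz => ?_⟩
  · rw [Polynomial.eval_mul]; exact mul_ne_zero (h1 z hz) (h3 z hz)
  · have e : (P * Q' + P' * Q).eval z / (Q * Q').eval z =
        P.eval z / Q.eval z + P'.eval z / Q'.eval z := by
      have := h1 z hz
      have := h3 z hz
      rw [Polynomial.eval_add, Polynomial.eval_mul, Polynomial.eval_mul, Polynomial.eval_mul]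
      field_simp
    have e2 : (f + g) z - (P.eval z / Q.eval z + P'.eval z / Q'.eval z) =
        (f z - P.eval z / Q.eval z) + (g z - P'.eval z / Q'.eval z) := by
      simp only [Pi.add_apply]; ring
    rw [e, e2]
    calc ‖(f z - P.eval z / Q.eval z) + (g z - P'.eval z / Q'.eval z)‖
        ≤ ‖f z - P.eval z / Q.eval z‖ + ‖g z - P'.eval z / Q'.eval z‖ := norm_add_le _ _
      _ < ε / 2 + ε / 2 := add_lt_add (h2 z hz) (h4 z hz)
      _ = ε := by ring

theorem IsHolo.smul {ι : Kinf F →+* C} {f : C → C} (c : C) (hf : IsHolo ι f) :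
    IsHolo ι (c • f) := by
  intro N ε hε
  obtain ⟨P, Q, h1, h2⟩ := hf N (ε / (‖c‖ + 1)) (by positivity)
  refine ⟨Polynomial.C c * P, Q, h1, fun z hz => ?_⟩
  have e : (c • f) z - (Polynomial.C c * P).eval z / Q.eval z =
      c * (f z - P.eval z / Q.eval z) := by
    simp only [Pi.smul_apply, smul_eq_mul, Polynomial.eval_mul, Polynomial.eval_C]; ring
  rw [e, norm_mul]
  have h3 := h2 z hz
  have h4 : 0 < ‖c‖ + 1 := by positivity
  have h5 : ‖c‖ * ‖f z - P.eval z / Q.eval z‖ ≤ ‖c‖ * (ε / (‖c‖ + 1)) :=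
    mul_le_mul_of_nonneg_left h3.le (norm_nonneg c)
  have h6 : ‖c‖ * (ε / (‖c‖ + 1)) < ε := by
    rw [← mul_div_assoc, div_lt_iff₀ h4]
    nlinarith [norm_nonneg c]
  linarith

omit [Fintype F] in
theorem slash_add (ι : Kinf F →+* C) (g : GLK F) (f f' : C → C) :
    slash ι g (f + f') = slash ι g f + slash ι g f' := by
  funext z; simp only [slash, Pi.add_apply]; ring

omit [Fintype F] in
theorem slash_smul (ι : Kinf F →+* C) (g : GLK F) (c : C) (f : C → C) :
    slash ι g (c • f) = c • slash ι g f := by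
  funext z; simp only [slash, Pi.smul_apply, smul_eq_mul]; ring

omit [Fintype F] in
theorem HasExp.add {ι : Kinf F →+* C} {c : C} {b : F[X]} {f f' : C → C} {a a' : ℕ → C}
    (h : HasExp ι c b f a) (h' : HasExp ι c b f' a') : HasExp ι c b (f + f') (a + a') := by
  obtain ⟨R, hR⟩ := h
  obtain ⟨R', hR'⟩ := h'
  refine ⟨max R R', fun z hz hi => ?_⟩
  have e := (hR z hz (le_trans (le_max_left _ _) hi)).add (hR' z hz (le_trans (le_max_right _ _) hi))
  simpa only [Pi.add_apply, add_mul] using e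

omit [Fintype F] in
theorem HasExp.smul {ι : Kinf F →+* C} {c : C} {b : F[X]} {f : C → C} {a : ℕ → C} (d : C)
    (h : HasExp ι c b f a) : HasExp ι c b (d • f) (d • a) := by
  obtain ⟨R, hR⟩ := h
  refine ⟨R, fun z hz hi => ?_⟩
  have e := (hR z hz hi).mul_left d
  simpa only [Pi.smul_apply, smul_eq_mul, mul_assoc] using e

/-- The space of doubly cuspidal forms. -/
def dcM (ι : Kinf F →+* C) (n : F[X]) : Submodule C (C → C) where
  carrier := {f | IsDC ι n f}
  add_mem' := by
    rintro f g hf hg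
    refine ⟨fun z hz => ?_, hf.holo.add hg.holo, fun γ hγ => ?_, fun γ => ?_⟩
    · simp only [Pi.add_apply, hf.off z hz, hg.off z hz, add_zero]
    · rw [slash_add, hf.modular γ hγ, hg.modular γ hγ]
    · obtain ⟨a, h0, h1, h2⟩ := hf.cusp γ
      obtain ⟨a', h0', h1', h2'⟩ := hg.cusp γ
      refine ⟨a + a', by simp [h0, h0'], by simp [h1, h1'], ?_⟩
      rw [slash_add]
      exact h2.add h2'
  zero_mem' := by
    refine ⟨fun _ _ => rfl, fun N ε hε => ⟨0, 1, by simp, fun z _ => by simpa using hε⟩, fun γ hγ => ?_,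
      fun γ => ⟨0, rfl, rfl, 0, fun z _ _ => ?_⟩⟩
    · funext z; simp [slash]
    · simp only [slash, Pi.zero_apply, mul_zero, zero_mul]
      exact hasSum_zero
  smul_mem' := by
    rintro c f hf
    refine ⟨fun z hz => ?_, hf.holo.smul c, fun γ hγ => ?_, fun γ => ?_⟩
    · simp only [Pi.smul_apply, hf.off z hz, smul_zero]
    · rw [slash_smul, hf.modular γ hγ]
    · obtain ⟨a, h0, h1, h2⟩ := hf.cusp γ
      refine ⟨c • a, by simp [h0], by simp [h1], ?_⟩
      rw [slash_smul]
      exact h2.smul c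

/-- The Hecke algebra acting on doubly cuspidal forms: the subalgebra of the endomorphisms
generated by all `T_m`, `m` monic. -/
def heckeM (ι : Kinf F →+* C) (n : F[X]) : Subalgebra C (Module.End C (dcM ι n)) :=
  Algebra.adjoin C {θ | ∃ m : F[X], m.Monic ∧
    ∀ f : dcM ι n, ((θ f : dcM ι n) : C → C) = heckeC ι n m (f : C → C)}

/-- The pairing `(θ, f) ↦ b (θ f)` attached to a linear functional `b`. -/
noncomputable def pairM (ι : Kinf F →+* C) (n : F[X]) (b : dcM ι n →ₗ[C] C) :
    heckeM ι n →ₗ[C] dcM ι n →ₗ[C] C where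
  toFun θ := b.comp (θ : Module.End C (dcM ι n))
  map_add' θ η := by ext φ; simp
  map_smul' c θ := by ext φ; simp

end Space

end Pool.Agent.HK
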