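import Pool.Agent.Helper8_HK.MDefs

/-! Auxiliary definitions for the Drinfeld modular forms part of squad HK (not used in the final
statement). -/

namespace Pool.Agent.HK

open Polynomial Filter

/-- Elementary functions: polynomials and negative powers of `z - a`, `a ∈ T`. -/
def Elm {C : Type} [Field C] (T : Set C) : Submodule C (C → C) :=
  Submodule.span C ({f | ∃ j : ℕ, f = fun z => z ^ j} ∪
    {f | ∃ a ∈ T, ∃ j : ℕ, f = fun z => ((z - a) ^ (j + 1))⁻¹})

section

variable (F : Type) [Field F] [Fintype F] {C : Type} [NormedField C]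

/-- The Schnirelman sums on the circle of radius `‖ρ‖`. -/
noncomputable def SK (ρ : C) (k : ℕ) (h : C → C) : C :=
  - ∑ ζ ∈ Polynomial.nthRootsFinset (Fintype.card F ^ k - 1) (1 : C), h (ρ * ζ) * (ρ * ζ)

/-- The residue on the circle of radius `‖ρ‖`. -/
noncomputable def res (ρ : C) (h : C → C) : C := limUnder atTop (fun k : ℕ => SK F ρ k h)

end

/-- Functions that are, on the circle of radius `‖ρ‖`, uniform limits of rational functions
without poles on the circle. -/
def Nice {C : Type} [NormedField C] (ρ : C) (h : C → C) : Prop :=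
  ∀ ε : ℝ, 0 < ε → ∃ e ∈ Elm {a : C | ‖a‖ ≠ ‖ρ‖}, ∀ z : C, ‖z‖ = ‖ρ‖ → ‖h z - e z‖ ≤ ε

section

variable {F : Type} [Field F] [Fintype F] {C : Type} [NormedField C] (ι : Kinf F →+* C)

/-- The standing assumptions: the absolute values agree and `ρ` is a square root of `T`. -/
structure Ctx (ρ : C) : Prop where
  ok : NormOK ι
  sq : ρ ^ 2 = (ι (unif F))⁻¹

/-- The function vanishes outside the upper half plane. -/
def Off (f : C → C) : Prop := ∀ z, z ∉ Om ι → f z = 0

/-- `‖f z‖ |z|_i ≤ B` on the upper half plane. -/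
def BddI (B : ℝ) (f : C → C) : Prop := ∀ z ∈ Om ι, ‖f z‖ * imz ι z ≤ B

/-- The harmonic cochain of residues of `f`. -/
noncomputable def kap (ρ : C) (f : C → C) (g : GLK F) : C := res F ρ (slash ι g f)

/-- The action of a matrix on the upper half plane. -/
noncomputable def mob (g : GLK F) (z : C) : C :=
  (ι (g 0 0) * z + ι (g 0 1)) / (ι (g 1 0) * z + ι (g 1 1))

/-- The exponential function of the lattice of polynomials, characterised by its properties. -/
structure IsEA (e : C → C) : Prop where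
  add : ∀ z w : C, e (z + w) = e z + e w
  smul : ∀ (c : F) (z : C), e (ι (cst F c) * z) = ι (cst F c) * e z
  van : ∀ a : F[X], e (ι (emb F a)) = 0
  nrm : ∀ z : C, ‖z‖ < 1 → ‖e z‖ = ‖z‖
  inv : ∀ z : C, (∀ a : F[X], z ≠ ι (emb F a)) →
    e z ≠ 0 ∧ HasSum (fun a : F[X] => (z - ι (emb F a))⁻¹) ((e z)⁻¹)

end

section

variable {F : Type} [Field F] [Fintype F]

/-- The element with digits `s j` at `π^(k+j)`. -/
noncomputable def dig (k : ℤ) {N : ℕ} (s : Fin N → F) : Kinf F :=
  ∑ j : Fin N, cst F (s j) * (unif F) ^ (k + (j : ℕ))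

variable {C : Type} [NormedField C] (ι : Kinf F →+* C)

/-- Riemann sums for the measure attached to the harmonic cochain `φ` on `π O`. -/
noncomputable def SInt (φ : GLK F → C) (N : ℕ) (g : Kinf F → C) : C :=
  ∑ s : Fin N → F, φ (mat ((unif F) ^ ((N : ℤ) + 1)) (dig 1 s) 0 1) * g (dig 1 s)

/-- The integral over `π O`. -/
noncomputable def IntK (φ : GLK F → C) (g : Kinf F → C) : C :=
  limUnder atTop (fun N : ℕ => SInt φ N g)

/-- Lipschitz functions on `π O`. -/
def LipK (g : Kinf F → C) : Prop :=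
  ∃ L : ℝ, ∀ x y : Kinf F, InO 1 x → InO 1 y → ‖g x - g y‖ ≤ L * ‖ι (x - y)‖

end

end Pool.Agent.HK
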